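import Mathlib

/-!
# Small oscillation of continuous functions on infinite subsets of compact spaces

Every infinite compact Hausdorff space `C` has a countable family of infinite subsets `O i` such that
every continuous function from `C` to a metric space has arbitrarily small oscillation on some `O i`.
-/

set_option autoImplicit false

open Set Topology Filter

namespace Pool.Agent.Zk90

universe u v

/-- minimal closed sets which meet all members of a family of closed sets -/
theorem exists_minimal_meeting {C : Type u} [TopologicalSpace C] [CompactSpace C] {ι : Type v}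
    (K : ι → Set C) (hK : ∀ i, IsClosed (K i)) (hne : ∀ i, (K i).Nonempty) :
    ∃ E : Set C, IsClosed E ∧ (∀ i, (E ∩ K i).Nonempty) ∧
      ∀ E' ⊆ E, IsClosed E' → (∀ i, (E' ∩ K i).Nonempty) → E' = E := by
  let S : Set (Set C) := {E | IsClosed E ∧ ∀ i, (E ∩ K i).Nonempty}
  have hchain : ∀ c ⊆ S, IsChain (· ⊆ ·) c → c.Nonempty → ∃ lb ∈ S, ∀ s ∈ c, lb ⊆ s := by
    intro c hc hcc hcn
    refine ⟨⋂₀ c, ⟨isClosed_sInter fun s hs => (hc hs).1, fun i => ?_⟩, fun s hs => sInter_subset_of_mem hs⟩
    have : Nonempty c := hcn.to_subtype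
    have h1 : (⋂ s : c, (s : Set C) ∩ K i).Nonempty := by
      refine IsCompact.nonempty_iInter_of_directed_nonempty_isCompact_isClosed _ ?_ ?_ ?_ ?_
      · intro s t
        rcases hcc.total s.2 t.2 with h | h
        · exact ⟨s, subset_rfl, inter_subset_inter_left _ h⟩
        · exact ⟨t, inter_subset_inter_left _ h, subset_rfl⟩
      · intro s
        exact (hc s.2).2 i
      · intro s
        exact ((hc s.2).1.inter (hK i)).isCompact
      · intro s
        exact (hc s.2).1.inter (hK i)
    obtain ⟨x, hx⟩ := h1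
    rw [mem_iInter] at hx
    refine ⟨x, ?_, (hx ⟨_, hcn.some_mem⟩).2⟩
    rw [mem_sInter]
    intro s hs
    exact (hx ⟨s, hs⟩).1
  obtain ⟨E, hE, hmin⟩ := zorn_superset_nonempty S hchain univ ⟨isClosed_univ, fun i => by
    rw [univ_inter]; exact hne i⟩
  refine ⟨E, hmin.1.1, hmin.1.2, ?_⟩
  intro E' hE' hc' hi'
  exact subset_antisymm hE' (hmin.2 ⟨hc', hi'⟩ hE')

/-- the splitting step in a dense in itself set -/
theorem exists_split {C : Type u} [TopologicalSpace C] [CompactSpace C] [T2Space C] (P : Set C)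
    (hP : ∀ p ∈ P, ∀ U : Set C, IsOpen U → p ∈ U → ∃ q ∈ P, q ∈ U ∧ q ≠ p)
    (U : Set C) (hU : IsOpen U) (hUP : (U ∩ P).Nonempty) :
    ∃ V : Bool → Set C, (∀ b, IsOpen (V b) ∧ (V b ∩ P).Nonempty ∧ closure (V b) ⊆ U) ∧
      Disjoint (closure (V false)) (closure (V true)) := by
  obtain ⟨p, hpU, hpP⟩ := hUP
  obtain ⟨q, hqP, hqU, hqp⟩ := hP p hpP U hU hpU
  obtain ⟨A, hA, hpA, B, hB, hqB, hAB⟩ : ∃ A : Set C, IsOpen A ∧ p ∈ A ∧ ∃ B : Set C, IsOpen B ∧
      q ∈ B ∧ Disjoint (closure A) (closure B) := by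
    obtain ⟨A, hpA, hA, B, hqB, hB, hAB⟩ := exists_open_nhds_disjoint_closure hqp.symm
    exact ⟨A, hA, hpA, B, hB, hqB, hAB⟩
  have hreg : ∀ x : C, ∀ W : Set C, IsOpen W → x ∈ W → ∃ W' : Set C, IsOpen W' ∧ x ∈ W' ∧
      closure W' ⊆ W := by
    intro x W hW hx
    obtain ⟨N, hN, hNc, hNW⟩ := exists_mem_nhds_isClosed_subset (hW.mem_nhds hx)
    exact ⟨interior N, isOpen_interior, mem_interior_iff_mem_nhds.2 hN,
      (closure_minimal interior_subset hNc).trans hNW⟩
  obtain ⟨A', hA', hpA', hA'c⟩ := hreg p (U ∩ A) (hU.inter hA) ⟨hpU, hpA⟩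
  obtain ⟨B', hB', hqB', hB'c⟩ := hreg q (U ∩ B) (hU.inter hB) ⟨hqU, hqB⟩
  refine ⟨fun b => if b then B' else A', ?_, ?_⟩
  · intro b
    cases b
    · exact ⟨hA', ⟨p, hpA', hpP⟩, hA'c.trans inter_subset_left⟩
    · exact ⟨hB', ⟨q, hqB', hqP⟩, hB'c.trans inter_subset_left⟩
  · exact hAB.mono ((hA'c.trans inter_subset_right).trans subset_closure)
      ((hB'c.trans inter_subset_right).trans subset_closure)

/-- the case of a space with a nonempty dense in itself subset -/
theorem osc_perfect {C : Type u} [TopologicalSpace C] [CompactSpace C] [T2Space C] (P : Set C)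
    (hPn : P.Nonempty)
    (hP : ∀ p ∈ P, ∀ U : Set C, IsOpen U → p ∈ U → ∃ q ∈ P, q ∈ U ∧ q ≠ p) :
    ∃ O : List Bool → Set C, (∀ s, (O s).Infinite) ∧
      ∀ (Y : Type v) [PseudoMetricSpace Y] (f : C → Y), Continuous f → ∀ ε : ℝ, 0 < ε →
        ∃ s, ∀ x ∈ O s, ∀ y ∈ O s, dist (f x) (f y) ≤ ε := by
  classical
  let Q : Type u := {U : Set C // IsOpen U ∧ (U ∩ P).Nonempty}
  have hstep : ∀ U : Q, ∃ V : Bool → Q, (∀ b, closure (V b).1 ⊆ U.1) ∧
      Disjoint (closure (V false).1) (closure (V true).1) := by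
    intro U
    obtain ⟨V, hV, hd⟩ := exists_split P hP U.1 U.2.1 U.2.2
    exact ⟨fun b => ⟨V b, (hV b).1, (hV b).2.1⟩, fun b => (hV b).2.2, hd⟩
  choose st hst1 hst2 using hstep
  let U : List Bool → Q := fun s => s.foldr (fun b V => st V b)
    ⟨univ, isOpen_univ, by rw [univ_inter]; exact hPn⟩
  have hUcons : ∀ b s, U (b :: s) = st (U s) b := fun b s => rfl
  let K : List Bool → Set C := fun s => closure (U s).1
  have hKcons : ∀ b s, K (b :: s) ⊆ K s := by
    intro b s
    exact (hst1 (U s) b).trans subset_closure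
  have hKapp : ∀ t s, K (t ++ s) ⊆ K s := by
    intro t s
    induction t with
    | nil => exact subset_rfl
    | cons b t ih => exact (hKcons b _).trans ih
  have hKdisj : ∀ s, Disjoint (K (false :: s)) (K (true :: s)) := fun s => hst2 (U s)
  obtain ⟨E, hEc, hEK, hEmin⟩ := exists_minimal_meeting K (fun s => isClosed_closure) (fun s => by
    obtain ⟨x, hx, -⟩ := (U s).2.2
    exact ⟨x, subset_closure hx⟩)
  refine ⟨fun s => E ∩ K s, ?_, ?_⟩
  · -- infinitely many points, in the sets of the sequences `true ^ n, false`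
    intro s
    have hpt : ∀ n : ℕ, (E ∩ K (false :: (List.replicate n true ++ s))).Nonempty := fun n => hEK _
    choose x hx using hpt
    have hrep : ∀ n m : ℕ, n < m → K (List.replicate m true ++ s) ⊆
        K (true :: (List.replicate n true ++ s)) := by
      intro n m hnm
      obtain ⟨k, rfl⟩ : ∃ k, m = k + (n + 1) := ⟨m - (n + 1), by omega⟩
      have h1 : List.replicate (k + (n + 1)) true ++ s =
          List.replicate k true ++ (true :: (List.replicate n true ++ s)) := by
        rw [List.replicate_add, List.append_assoc, List.replicate_succ, List.cons_append]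
      rw [h1]
      exact hKapp _ _
    have hinj : Function.Injective x := by
      have key : ∀ n m : ℕ, n < m → x n ≠ x m := by
        intro n m hnm he
        have h1 := (hx n).2
        have h2 := hrep n m hnm (hKcons _ _ (hx m).2)
        rw [← he] at h2
        exact (hKdisj _).le_bot ⟨h1, h2⟩
      intro n m he
      rcases lt_trichotomy n m with h | h | h
      · exact absurd he (key n m h)
      · exact h
      · exact absurd he.symm (key m n h)
    refine (infinite_range_of_injective hinj).mono ?_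
    rintro _ ⟨n, rfl⟩
    exact ⟨(hx n).1, hKapp _ _ (hKcons _ _ (hx n).2)⟩
  · intro Y _ f hf ε hε
    obtain ⟨e, he, -⟩ := hEK []
    by_contra hcon
    push Not at hcon
    have h1 : E ∩ {x | ε / 2 ≤ dist (f x) (f e)} = E := by
      refine hEmin _ inter_subset_left (hEc.inter ?_) ?_
      · exact isClosed_le continuous_const (by fun_prop)
      · intro s
        obtain ⟨x, hx, y, hy, hxy⟩ := hcon s
        by_contra hno
        rw [not_nonempty_iff_eq_empty] at hno
        have hsm : ∀ z ∈ E ∩ K s, dist (f z) (f e) < ε / 2 := by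
          intro z hz
          by_contra hz2
          push Not at hz2
          have : z ∈ E ∩ {x | ε / 2 ≤ dist (f x) (f e)} ∩ K s := ⟨⟨hz.1, hz2⟩, hz.2⟩
          rw [hno] at this
          exact this
        have h2 := hsm x hx
        have h3 := hsm y hy
        have h4 := dist_triangle_right (f x) (f y) (f e)
        linarith
    have h2 : e ∈ E ∩ {x | ε / 2 ≤ dist (f x) (f e)} := by rw [h1]; exact he
    have h3 : ε / 2 ≤ dist (f e) (f e) := h2.2
    rw [dist_self] at h3
    linarith

/-- the case of a compact space with a nontrivial convergent sequence, in the form of an accumulation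
point `p` which is isolated among the accumulation points -/
theorem osc_isolated {C : Type u} [TopologicalSpace C] [CompactSpace C] [T2Space C] (p : C)
    (hp : ∀ U : Set C, IsOpen U → p ∈ U → ∃ q ∈ U, q ≠ p) (U : Set C) (hU : IsOpen U) (hpU : p ∈ U)
    (hiso : ∀ q ∈ U, q ≠ p → ∃ V : Set C, IsOpen V ∧ q ∈ V ∧ ∀ x ∈ V, x = q) :
    ∃ O : ℕ → Set C, (∀ s, (O s).Infinite) ∧
      ∀ (Y : Type v) [PseudoMetricSpace Y] (f : C → Y), Continuous f → ∀ ε : ℝ, 0 < ε →
        ∃ s, ∀ x ∈ O s, ∀ y ∈ O s, dist (f x) (f y) ≤ ε := by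
  classical
  obtain ⟨N, hN, hNc, hNU⟩ := exists_mem_nhds_isClosed_subset (hU.mem_nhds hpU)
  -- neighbourhoods of `p` contain almost all points of `N`
  have hfin : ∀ W : Set C, IsOpen W → p ∈ W → (N \ W).Finite := by
    intro W hW hpW
    have hcomp : IsCompact (N \ W) := (hNc.sdiff hW).isCompact
    have hdisc : ∀ q ∈ N \ W, ∃ V : Set C, IsOpen V ∧ q ∈ V ∧ ∀ x ∈ V, x = q := by
      intro q hq
      exact hiso q (hNU hq.1) (fun h => hq.2 (h ▸ hpW))
    choose! V hV1 hV2 hV3 using hdisc
    obtain ⟨t, ht, htc⟩ := hcomp.elim_nhds_subcover V (fun q hq =>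
      (hV1 q hq).mem_nhds (hV2 q hq))
    refine t.finite_toSet.subset fun x hx => ?_
    obtain ⟨q, hq, hxq⟩ := mem_iUnion₂.1 (htc hx)
    rw [hV3 q (ht q hq) x hxq]
    exact hq
  have hinf : (N \ {p}).Infinite := by
    intro hf
    have h1 : IsOpen (interior N ∩ (N \ {p})ᶜ) := isOpen_interior.inter hf.isClosed.isOpen_compl
    obtain ⟨q, hq, hqp⟩ := hp _ h1 ⟨mem_interior_iff_mem_nhds.2 hN, fun h => h.2 rfl⟩
    exact hq.2 ⟨interior_subset hq.1, hqp⟩
  let x : ℕ → C := fun n => (hinf.natEmbedding _ n : C)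
  have hxinj : Function.Injective x := by
    intro n m h
    exact (hinf.natEmbedding _).injective (Subtype.ext h)
  have hxN : ∀ n, x n ∈ N := fun n => (hinf.natEmbedding _ n).2.1
  refine ⟨fun s => x '' {n | s ≤ n}, ?_, ?_⟩
  · intro s
    exact (Set.Ici_infinite s).image hxinj.injOn
  · intro Y _ f hf ε hε
    have hW : IsOpen {z | dist (f z) (f p) < ε / 2} := isOpen_lt (by fun_prop) continuous_const
    have h1 := hfin _ hW (by change dist (f p) (f p) < ε / 2; rw [dist_self]; linarith)
    have h2 : (x ⁻¹' (N \ {z | dist (f z) (f p) < ε / 2})).Finite := h1.preimage hxinj.injOn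
    obtain ⟨M, hM⟩ := h2.bddAbove
    refine ⟨M + 1, ?_⟩
    have h3 : ∀ n, M + 1 ≤ n → dist (f (x n)) (f p) < ε / 2 := by
      intro n hn
      by_contra hcon
      have := hM (show n ∈ x ⁻¹' (N \ {z | dist (f z) (f p) < ε / 2}) from ⟨hxN n, hcon⟩)
      omega
    rintro _ ⟨n, hn, rfl⟩ _ ⟨m, hm, rfl⟩
    have h4 := h3 n hn
    have h5 := h3 m hm
    have h6 := dist_triangle_right (f (x n)) (f (x m)) (f p)
    linarith

/-- **Small oscillation.** Every infinite compact Hausdorff space has a countable family of infinite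
subsets such that every continuous function to a metric space has arbitrarily small oscillation on
some member of the family. -/
theorem exists_osc (C : Type u) [TopologicalSpace C] [CompactSpace C] [T2Space C] [Infinite C] :
    ∃ O : ℕ → Set C, (∀ s, (O s).Infinite) ∧
      ∀ (Y : Type v) [PseudoMetricSpace Y] (f : C → Y), Continuous f → ∀ ε : ℝ, 0 < ε →
        ∃ s, ∀ x ∈ O s, ∀ y ∈ O s, dist (f x) (f y) ≤ ε := by
  classical
  -- the accumulation points
  let P : Set C := {p | ∀ U : Set C, IsOpen U → p ∈ U → ∃ q ∈ U, q ≠ p}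
  have hPn : P.Nonempty := by
    by_contra hno
    rw [not_nonempty_iff_eq_empty] at hno
    have h1 : ∀ q : C, ∃ V : Set C, IsOpen V ∧ q ∈ V ∧ ∀ x ∈ V, x = q := by
      intro q
      by_contra hcon
      push Not at hcon
      have : q ∈ P := hcon
      rw [hno] at this
      exact this
    choose V hV1 hV2 hV3 using h1
    obtain ⟨t, -, htc⟩ := isCompact_univ.elim_nhds_subcover V (fun q _ => (hV1 q).mem_nhds (hV2 q))
    have h2 : (univ : Set C).Finite := by
      refine t.finite_toSet.subset fun x hx => ?_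
      obtain ⟨q, hq, hxq⟩ := mem_iUnion₂.1 (htc hx)
      rw [hV3 q x hxq]
      exact hq
    exact infinite_univ h2
  by_cases hperf : ∀ p ∈ P, ∀ U : Set C, IsOpen U → p ∈ U → ∃ q ∈ P, q ∈ U ∧ q ≠ p
  · obtain ⟨O, hO, hf⟩ := osc_perfect.{u, v} P hPn hperf
    let e : ℕ → List Bool := fun n => (Encodable.decode n).getD []
    have he : ∀ s : List Bool, ∃ n, e n = s := by
      intro s
      refine ⟨Encodable.encode s, ?_⟩
      simp [e]
    refine ⟨fun n => O (e n), fun n => hO _, ?_⟩
    intro Y _ f hfc ε hε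
    obtain ⟨s, hs⟩ := hf Y f hfc ε hε
    obtain ⟨n, rfl⟩ := he s
    exact ⟨n, hs⟩
  · push Not at hperf
    obtain ⟨p, hp, U, hU, hpU, hiso⟩ := hperf
    refine osc_isolated.{u, v} p hp U hU hpU ?_
    intro q hq hqp
    by_contra hcon
    push Not at hcon
    exact hqp (hiso q hcon hq)

end Pool.Agent.Zk90
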