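import Mathlib
import Pool.Agent.Zk90.TL

/-!
# Characters of precompact Baire groups

If `G` is a precompact abelian group with the Baire property then there is no infinite compact space of
characters of `G` for the topology of pointwise convergence.
-/

set_option autoImplicit false

open Set Topology Filter Pointwise

namespace Pool.Agent.Zk90

universe u v

/-- A topological group `G` is precompact (totally bounded): for every neighbourhood `U` of the identity
there is a finite set `F` with `F * U = G`. -/
def Precompact (G : Type u) [Group G] [TopologicalSpace G] : Prop :=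
  ∀ U ∈ 𝓝 (1 : G), ∃ F : Set G, F.Finite ∧ F * U = Set.univ

theorem circle_dist (z w : Circle) : dist z w = ‖(z : ℂ) - w‖ := by
  change dist (z : ℂ) (w : ℂ) = _
  rw [dist_eq_norm]

theorem circle_dist_mul (z w u : Circle) : dist (z * u) (w * u) = dist z w := by
  rw [circle_dist, circle_dist, Circle.coe_mul, Circle.coe_mul, ← sub_mul, norm_mul, Circle.norm_coe,
    mul_one]

theorem circle_dist_div (z w : Circle) : dist (z / w) 1 = dist z w := by
  rw [← circle_dist_mul (z / w) 1 w, div_mul_cancel, one_mul]

/-- the circle has no small subgroups -/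
theorem circle_no_small (z : Circle) (h : ∀ n : ℕ, dist (z ^ n) 1 ≤ 1) : z = 1 := by
  have key : ∀ k : ℕ, (3 / 2 : ℝ) ^ k * dist z 1 ≤ dist (z ^ (2 ^ k)) 1 := by
    intro k
    induction k with
    | zero => simp
    | succ k ih =>
      set w := z ^ (2 ^ k) with hw
      have hw1 : dist w 1 ≤ 1 := h _
      have h1 : z ^ (2 ^ (k + 1)) = w * w := by
        rw [hw, ← pow_add]; congr 1; ring
      have h2 : dist (w * w) 1 = dist w 1 * ‖(w : ℂ) + 1‖ := by
        rw [circle_dist, circle_dist, ← norm_mul, Circle.coe_mul, Circle.coe_one]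
        congr 1; ring
      have h3 : ‖(w : ℂ) + 1‖ ^ 2 + ‖(w : ℂ) - 1‖ ^ 2 = 4 := by
        have := parallelogram_law_with_norm ℝ (w : ℂ) 1
        rw [Circle.norm_coe, norm_one] at this
        nlinarith
      have h4 : ‖(w : ℂ) - 1‖ ≤ 1 := by
        have := hw1
        rwa [circle_dist, Circle.coe_one] at this
      have h5 : (3 / 2 : ℝ) ≤ ‖(w : ℂ) + 1‖ := by
        nlinarith [norm_nonneg ((w : ℂ) + 1), norm_nonneg ((w : ℂ) - 1)]
      rw [h1, h2, pow_succ]
      have h6 : 0 ≤ dist w 1 := dist_nonneg
      nlinarith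
  by_contra hne
  have hpos : 0 < dist z 1 := dist_pos.2 hne
  obtain ⟨k, hk⟩ := pow_unbounded_of_one_lt (1 / dist z 1) (show (1 : ℝ) < 3 / 2 by norm_num)
  have h1 := key k
  have h2 := h (2 ^ k)
  rw [div_lt_iff₀ hpos] at hk
  linarith

/-- the polar of a neighbourhood of the identity in a precompact group is finite -/
theorem polar_finite {G : Type u} [CommGroup G] [TopologicalSpace G] (hG : Precompact G)
    (V : Set G) (hV : V ∈ 𝓝 (1 : G)) : {a : G →* Circle | ∀ v ∈ V, dist (a v) 1 ≤ 1 / 4}.Finite := by
  classical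
  obtain ⟨F, hF, hFV⟩ := hG V hV
  have : Fintype F := hF.fintype
  -- the characters in the polar are separated by `F`
  have hsep : ∀ a ∈ {a : G →* Circle | ∀ v ∈ V, dist (a v) 1 ≤ 1 / 4},
      ∀ b ∈ {a : G →* Circle | ∀ v ∈ V, dist (a v) 1 ≤ 1 / 4},
      (∀ f : F, dist (a f) (b f) < 1 / 2) → a = b := by
    intro a ha b hb hab
    have h1 : ∀ g, dist ((a / b) g) 1 ≤ 1 := by
      intro g
      have hg : g ∈ F * V := by rw [hFV]; trivial
      obtain ⟨f, hf, v, hv, rfl⟩ := hg
      have h2 : (a / b) (f * v) = (a f / b f) * (a v / b v) := by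
        rw [MonoidHom.div_apply, map_mul, map_mul]
        exact mul_div_mul_comm _ _ _ _
      change dist ((a / b) (f * v)) 1 ≤ 1
      rw [h2]
      have h3 : dist ((a f / b f) * (a v / b v)) 1 ≤
          dist ((a f / b f) * (a v / b v)) (1 * (a v / b v)) + dist (1 * (a v / b v)) 1 :=
        dist_triangle _ _ _
      rw [circle_dist_mul, one_mul, circle_dist_div, circle_dist_div] at h3
      have h4 : dist (a v) (b v) ≤ dist (a v) 1 + dist (b v) 1 := dist_triangle_right _ _ _
      have h5 := ha v hv
      have h6 := hb v hv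
      have h7 := hab ⟨f, hf⟩
      simp only at h7
      linarith
    have h8 : a / b = 1 := by
      ext g
      have : (a / b) g = 1 := by
        refine circle_no_small _ fun n => ?_
        rw [← map_pow]
        exact h1 _
      rw [this]; rfl
    exact div_eq_one.1 h8
  -- total boundedness of the finite power of the circle
  obtain ⟨t, -, htf, htc⟩ := finite_cover_balls_of_compact (isCompact_univ (X := F → Circle))
    (show (0 : ℝ) < 1 / 4 by norm_num)
  have hchoice : ∀ x : F → Circle, ∃ y ∈ t, x ∈ Metric.ball y (1 / 4) := by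
    intro x
    obtain ⟨y, hy, hxy⟩ := mem_iUnion₂.1 (htc (mem_univ x))
    exact ⟨y, hy, hxy⟩
  choose y hyt hy using hchoice
  refine Set.Finite.of_finite_image (f := fun a : G →* Circle => y fun f : F => a f) ?_ ?_
  · refine htf.subset ?_
    rintro _ ⟨a, -, rfl⟩
    exact hyt _
  · intro a ha b hb hab
    refine hsep a ha b hb fun f => ?_
    have h1 := hy fun f : F => a f
    have h2 := hy fun f : F => b f
    simp only at hab
    rw [← hab] at h2
    have h3 := (dist_pi_lt_iff (by norm_num)).1 (Metric.mem_ball.1 h1) f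
    have h4 := (dist_pi_lt_iff (by norm_num)).1 (Metric.mem_ball.1 h2) f
    have h5 := dist_triangle_right (a f) (b f) (y (fun f : F => a f) f)
    linarith

/-- **Key lemma.** Let `G` be a precompact abelian group with the Baire property and `c` an injective
family of continuous characters of `G` indexed by an infinite compact Hausdorff space `C`. It is
impossible that for all `g` and all countable subsets `Q` of `C` the function `x ↦ c x g` on `Q` extends
to a continuous function on `C`. -/
theorem key {G : Type u} [CommGroup G] [TopologicalSpace G] [IsTopologicalGroup G] [BaireSpace G]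
    (hG : Precompact G) {C : Type v} [TopologicalSpace C] [CompactSpace C] [T2Space C] [Infinite C]
    (c : C → (G →* Circle)) (hc : Function.Injective c) (hcont : ∀ x, Continuous (c x))
    (hev : ∀ Q : Set C, Q.Countable → ∀ g : G, ∃ f : C → Circle, Continuous f ∧
      ∀ x ∈ Q, f x = c x g) : False := by
  classical
  obtain ⟨O', hO', hosc⟩ := exists_osc.{v, 0} C
  let O : ℕ → Set C := fun i => range fun n => ((hO' i).natEmbedding _ n : C)
  have hOinf : ∀ i, (O i).Infinite := fun i => infinite_range_of_injective fun n m h =>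
    ((hO' i).natEmbedding _).injective (Subtype.ext h)
  have hOO' : ∀ i, O i ⊆ O' i := by
    rintro i _ ⟨n, rfl⟩
    exact ((hO' i).natEmbedding _ n).2
  let B : ℕ → Set G := fun i => {g | ∀ x ∈ O i, ∀ y ∈ O i, dist (c x g) (c y g) ≤ 1 / 8}
  have hBc : ∀ i, IsClosed (B i) := by
    intro i
    have : B i = ⋂ x ∈ O i, ⋂ y ∈ O i, {g | dist (c x g) (c y g) ≤ 1 / 8} := by
      ext g; simp [B]
    rw [this]
    refine isClosed_biInter fun x _ => isClosed_biInter fun y _ => ?_
    exact isClosed_le ((hcont x).dist (hcont y)) continuous_const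
  have hBU : ⋃ i, B i = univ := by
    refine eq_univ_of_forall fun g => ?_
    obtain ⟨f, hf, hfg⟩ := hev (⋃ i, O i) (countable_iUnion fun i => countable_range _) g
    obtain ⟨i, hi⟩ := hosc Circle f hf (1 / 8) (by norm_num)
    refine mem_iUnion.2 ⟨i, fun x hx y hy => ?_⟩
    rw [← hfg x (mem_iUnion.2 ⟨i, hx⟩), ← hfg y (mem_iUnion.2 ⟨i, hy⟩)]
    exact hi x (hOO' i hx) y (hOO' i hy)
  obtain ⟨i, g₀, hg₀⟩ := nonempty_interior_of_iUnion_of_closed hBc hBU
  -- a neighbourhood of the identity
  have hV : (fun v => g₀ * v) ⁻¹' interior (B i) ∈ 𝓝 (1 : G) := by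
    refine (continuous_const_mul g₀).continuousAt.preimage_mem_nhds ?_
    rw [mul_one]
    exact isOpen_interior.mem_nhds hg₀
  have hfin := polar_finite hG _ hV
  obtain ⟨y₀, hy₀⟩ := (hOinf i).nonempty
  have h1 : (fun x => c x / c y₀) '' O i ⊆
      {a : G →* Circle | ∀ v ∈ (fun v => g₀ * v) ⁻¹' interior (B i), dist (a v) 1 ≤ 1 / 4} := by
    rintro _ ⟨x, hx, rfl⟩ v hv
    have h2 : dist (c x (g₀ * v)) (c y₀ (g₀ * v)) ≤ 1 / 8 := (interior_subset hv) x hx y₀ hy₀
    have h3 : dist (c x g₀) (c y₀ g₀) ≤ 1 / 8 := (interior_subset hg₀) x hx y₀ hy₀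
    rw [← circle_dist_div] at h2 h3
    rw [map_mul, map_mul, mul_div_mul_comm] at h2
    rw [MonoidHom.div_apply]
    set p := c x g₀ / c y₀ g₀
    set q := c x v / c y₀ v
    have h4 : dist q 1 ≤ dist q (q * p) + dist (q * p) 1 := dist_triangle _ _ _
    have h5 : dist q (q * p) = dist p 1 := by
      have := circle_dist_mul 1 p q
      rw [one_mul, mul_comm p q] at this
      rw [this, dist_comm]
    rw [mul_comm] at h2
    linarith
  have h2 : ((fun x => c x / c y₀) '' O i).Infinite :=
    (hOinf i).image fun x _ y _ h => hc (div_left_injective h)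
  exact h2 (hfin.subset h1)

end Pool.Agent.Zk90
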