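import Mathlib
import Pool.Agent.Zk90.Polar

/-!
# The generic group over a topological group

For a commutative topological group `H` we construct a subgroup `GG H` of `(Idx H → Circle) × H`. It is
generated by elements `(mat ξ, hpt ξ)`, `ξ : Idx H`, such that

* for all countable sets `S` of coordinates, all functions `Y` on `S` and all `h : H` some generator is
  equal to `Y` on `S` and to `h` in the last coordinate;
* for all countable sets `S` of generators and all functions `Y` on `S` there is a coordinate in which the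
  generators in `S` take the values given by `Y`.
-/

set_option autoImplicit false
set_option linter.unusedSectionVars false

open Set Topology Filter Pointwise

namespace Pool.Agent.Zk90

universe u v

/-- the index set: it contains every sequence of its elements, with labels -/
inductive Idx (H : Type u) : Type u
  | leaf : Idx H
  | node : (ℕ → Idx H) → (ℕ → Circle) → H → Idx H

namespace Idx

variable {H : Type u}

/-- `ν` is one of the indices from which `ξ` is built -/
def Child (ν : Idx H) : Idx H → Prop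
  | leaf => False
  | node J _ _ => ∃ n, J n = ν

theorem wf : WellFounded (Child : Idx H → Idx H → Prop) := by
  constructor
  intro ξ
  induction ξ with
  | leaf => exact Acc.intro _ fun ν h => h.elim
  | node J y h ih =>
    refine Acc.intro _ fun ν hν => ?_
    obtain ⟨n, rfl⟩ := hν
    exact ih n

theorem asymm {ν ξ : Idx H} (h : Child ν ξ) : ¬ Child ξ ν := fun h' => wf.asymmetric _ _ h h'

open Classical in
/-- the label of `ν` in `ξ` -/
noncomputable def val : Idx H → Idx H → Circle
  | leaf, _ => 1
  | node J y _, ν => if h : ∃ n, J n = ν then y (Nat.find h) else 1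

/-- the last label -/
def hpt [One H] : Idx H → H
  | leaf => 1
  | node _ _ h => h

open Classical in
/-- the matrix -/
noncomputable def mat (ξ ν : Idx H) : Circle :=
  if Child ν ξ then val ξ ν else if Child ξ ν then val ν ξ else 1

theorem exists_enum (S : Set (Idx H)) (hS : S.Countable) : ∃ J : ℕ → Idx H, S ⊆ range J := by
  rcases S.eq_empty_or_nonempty with rfl | hne
  · exact ⟨fun _ => leaf, empty_subset _⟩
  · obtain ⟨J, hJ⟩ := hS.exists_eq_range hne
    exact ⟨J, hJ.le⟩

theorem val_node (J : ℕ → Idx H) (Y : Idx H → Circle) (h : H) (n : ℕ) :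
    val (node J (fun n => Y (J n)) h) (J n) = Y (J n) := by
  classical
  have hex : ∃ m, J m = J n := ⟨n, rfl⟩
  change (if h : ∃ m, J m = J n then Y (J (Nat.find h)) else 1) = Y (J n)
  rw [dif_pos hex]
  exact congrArg Y (Nat.find_spec hex)

/-- coordinates with prescribed values on countably many generators -/
theorem exists_coord [Nonempty H] (S : Set (Idx H)) (hS : S.Countable) (Y : Idx H → Circle) :
    ∃ ν, ∀ ξ ∈ S, mat ξ ν = Y ξ := by
  obtain ⟨J, hJ⟩ := exists_enum S hS
  obtain ⟨h⟩ := ‹Nonempty H›
  refine ⟨node J (fun n => Y (J n)) h, fun ξ hξ => ?_⟩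
  obtain ⟨n, rfl⟩ := hJ hξ
  have h1 : Child (J n) (node J (fun n => Y (J n)) h) := ⟨n, rfl⟩
  unfold mat
  rw [if_neg (asymm h1), if_pos h1, val_node]

/-- generators with prescribed values in countably many coordinates -/
theorem exists_gen [One H] (S : Set (Idx H)) (hS : S.Countable) (Y : Idx H → Circle) (h : H) :
    ∃ ξ, hpt ξ = h ∧ ∀ ν ∈ S, mat ξ ν = Y ν := by
  obtain ⟨J, hJ⟩ := exists_enum S hS
  refine ⟨node J (fun n => Y (J n)) h, rfl, fun ν hν => ?_⟩
  obtain ⟨n, rfl⟩ := hJ hν
  have h1 : Child (J n) (node J (fun n => Y (J n)) h) := ⟨n, rfl⟩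
  unfold mat
  rw [if_pos h1, val_node]

end Idx

/-- the value of an integral combination of indices -/
noncomputable def ev {I : Type u} {A : Type v} [CommGroup A] (x : I →₀ ℤ) (Y : I → A) : A :=
  x.prod fun ξ n => Y ξ ^ n

section ev

variable {I : Type u} {A : Type v} [CommGroup A]

theorem ev_zero (Y : I → A) : ev (0 : I →₀ ℤ) Y = 1 := Finsupp.prod_zero_index

theorem ev_add (x y : I →₀ ℤ) (Y : I → A) : ev (x + y) Y = ev x Y * ev y Y := by
  classical
  exact Finsupp.prod_add_index' (fun a => zpow_zero _) (fun a m n => zpow_add _ _ _)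

theorem ev_single (ξ : I) (Y : I → A) : ev (Finsupp.single ξ 1) Y = Y ξ := by
  unfold ev
  rw [Finsupp.prod_single_index (zpow_zero _), zpow_one]

theorem ev_one (x : I →₀ ℤ) : ev x (fun _ => (1 : A)) = 1 := by
  unfold ev Finsupp.prod
  simp

theorem ev_mul (x : I →₀ ℤ) (Y Z : I → A) : ev x (fun i => Y i * Z i) = ev x Y * ev x Z := by
  unfold ev
  rw [← Finsupp.prod_mul]
  simp only [mul_zpow]

theorem ev_congr (x : I →₀ ℤ) {Y Z : I → A} (h : ∀ i ∈ x.support, Y i = Z i) : ev x Y = ev x Z := by
  unfold ev Finsupp.prod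
  refine Finset.prod_congr rfl fun i hi => ?_
  change Y i ^ x i = Z i ^ x i
  rw [h i hi]

theorem ev_mulSingle [DecidableEq I] (x : I →₀ ℤ) (i : I) (z : A) :
    ev x (Pi.mulSingle i z) = z ^ x i := by
  unfold ev Finsupp.prod
  rw [Finset.prod_eq_single i]
  · change (Pi.mulSingle i z : I → A) i ^ x i = z ^ x i
    rw [Pi.mulSingle_eq_same]
  · intro j _ hj
    change (Pi.mulSingle i z : I → A) j ^ x j = 1
    rw [Pi.mulSingle_eq_of_ne hj, one_zpow]
  · intro hi
    change (Pi.mulSingle i z : I → A) i ^ x i = 1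
    rw [Finsupp.notMem_support_iff.1 hi, zpow_zero]

end ev

theorem circle_exists_zpow_ne {n : ℤ} (hn : n ≠ 0) : ∃ z : Circle, z ^ n ≠ 1 := by
  refine ⟨Circle.exp (Real.pi / n), ?_⟩
  have h1 : Circle.exp (Real.pi / n) ^ n = Circle.exp Real.pi := by
    rw [← Circle.exp_zsmul, zsmul_eq_mul]
    congr 1
    have : (n : ℝ) ≠ 0 := by exact_mod_cast hn
    field_simp
  rw [h1]
  intro h2
  have h3 : ((Circle.exp Real.pi : Circle) : ℂ) = 1 := by rw [h2]; rfl
  rw [Circle.coe_exp, Complex.exp_pi_mul_I] at h3
  norm_num at h3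

theorem ev_injective {I : Type u} {x y : I →₀ ℤ} (h : ∀ Y : I → Circle, ev x Y = ev y Y) : x = y := by
  classical
  ext i
  by_contra hne
  obtain ⟨z, hz⟩ := circle_exists_zpow_ne (sub_ne_zero.2 hne)
  have h1 := h (Pi.mulSingle i z)
  rw [ev_mulSingle, ev_mulSingle] at h1
  exact hz (by rw [zpow_sub, h1, mul_inv_cancel])

/-- the character of the torus given by an integral combination -/
noncomputable def evHom {I : Type u} (x : I →₀ ℤ) : (I → Circle) →* Circle where
  toFun Y := ev x Y
  map_one' := ev_one x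
  map_mul' Y Z := ev_mul x Y Z

theorem evHom_continuous {I : Type u} (x : I →₀ ℤ) : Continuous (evHom x) := by
  change Continuous fun Y : I → Circle => ∏ i ∈ x.support, Y i ^ x i
  exact continuous_finsetProd _ fun i _ => (continuous_apply i).zpow _

open Idx

variable {H : Type u} [CommGroup H]

/-- the homomorphism to the product which defines the group -/
noncomputable def Phi (H : Type u) [CommGroup H] :
    Multiplicative (Idx H →₀ ℤ) →* (Idx H → Circle) × H where
  toFun x := (fun ν => ev (Multiplicative.toAdd x) fun ξ => mat ξ ν, ev (Multiplicative.toAdd x) hpt)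
  map_one' := by
    ext ν
    · simp [ev_zero]
    · simp [ev_zero]
  map_mul' x y := by
    refine Prod.ext (funext fun ν => ?_) ?_
    · simp [ev_add]
    · simp [ev_add]

/-- the generic group over `H` -/
noncomputable abbrev GG (H : Type u) [CommGroup H] : Type u := (Phi H).range

/-- the generators of the generic group -/
noncomputable def gen (ξ : Idx H) : GG H :=
  ⟨(fun ν => mat ξ ν, hpt ξ), Multiplicative.ofAdd (Finsupp.single ξ 1), by
    refine Prod.ext (funext fun ν => ?_) ?_
    · exact ev_single _ _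
    · exact ev_single _ _⟩

theorem gen_fst (ξ ν : Idx H) : (gen ξ : (Idx H → Circle) × H).1 ν = mat ξ ν := rfl

theorem gen_snd (ξ : Idx H) : (gen ξ : (Idx H → Circle) × H).2 = hpt ξ := rfl

/-- the combination of generators which gives an element -/
noncomputable def coeff (g : GG H) : Idx H →₀ ℤ := Multiplicative.toAdd g.2.choose

theorem coeff_spec (g : GG H) : Phi H (Multiplicative.ofAdd (coeff g)) = g := g.2.choose_spec

theorem coeff_fst (g : GG H) (ν : Idx H) :
    (g : (Idx H → Circle) × H).1 ν = ev (coeff g) fun ξ => mat ξ ν := by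
  conv_lhs => rw [← coeff_spec g]
  rfl

theorem coeff_injective : Function.Injective (coeff : GG H → _) := by
  intro g h e
  apply Subtype.ext
  rw [← coeff_spec g, ← coeff_spec h, e]

section top

variable [TopologicalSpace H] [IsTopologicalGroup H]

/-- compact subsets of the generic group are finite -/
theorem compact_finite [T2Space H] {K : Set (GG H)} (hK : IsCompact K) : K.Finite := by
  classical
  by_contra hinf
  have : Infinite K := Set.infinite_coe_iff.2 hinf
  have : CompactSpace K := isCompact_iff_compactSpace.1 hK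
  have hpc : Precompact (Idx H → Circle) := by
    intro U hU
    obtain ⟨t, ht⟩ := compact_covered_by_mul_left_translates (K := (univ : Set (Idx H → Circle)))
      isCompact_univ (V := U) ⟨1, mem_interior_iff_mem_nhds.2 hU⟩
    refine ⟨(fun g => g⁻¹) '' (t : Set (Idx H → Circle)), t.finite_toSet.image _, ?_⟩
    refine eq_univ_of_forall fun x => ?_
    obtain ⟨g, hg, hx⟩ := mem_iUnion₂.1 (ht (mem_univ x))
    exact ⟨g⁻¹, ⟨g, hg, rfl⟩, g * x, hx, by simp⟩
  refine key (G := Idx H → Circle) hpc (C := K) (fun a => evHom (coeff a.1)) ?_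
    (fun a => evHom_continuous _) ?_
  · intro a b hab
    apply Subtype.ext
    apply coeff_injective
    apply ev_injective
    intro Y
    exact DFunLike.congr_fun hab Y
  · intro Q hQ Y
    obtain ⟨ν, hν⟩ := exists_coord (⋃ a ∈ Q, ((coeff a.1).support : Set (Idx H)))
      (hQ.biUnion fun a _ => (coeff a.1).support.countable_toSet) Y
    refine ⟨fun a => (a.1 : (Idx H → Circle) × H).1 ν, by fun_prop, fun a ha => ?_⟩
    change (a.1 : (Idx H → Circle) × H).1 ν = ev (coeff a.1) Y
    rw [coeff_fst]
    exact ev_congr _ fun ξ hξ => hν ξ (mem_biUnion ha hξ)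

/-- the projection to `H` -/
noncomputable def proj (H : Type u) [CommGroup H] : GG H →* H :=
  (MonoidHom.snd (Idx H → Circle) H).comp (Phi H).range.subtype

theorem proj_apply (g : GG H) : proj H g = (g : (Idx H → Circle) × H).2 := rfl

theorem proj_continuous : Continuous (proj H) := continuous_snd.comp continuous_subtype_val

theorem proj_surjective : Function.Surjective (proj H) := by
  intro h
  obtain ⟨ξ, hξ, -⟩ := exists_gen ∅ countable_empty (fun _ => 1) h
  exact ⟨gen ξ, hξ⟩

/-- neighbourhoods in the product, with a finite support -/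
theorem exists_box {I : Type v} {O : Set ((I → Circle) × H)} (hO : IsOpen O) {y : I → Circle} {h : H}
    (hyh : (y, h) ∈ O) : ∃ (F : Finset I) (b : Set (I → Circle)) (V : Set H), IsOpen b ∧ IsOpen V ∧
      y ∈ b ∧ h ∈ V ∧ b ×ˢ V ⊆ O ∧ ∀ y' ∈ b, ∀ y'' : I → Circle, (∀ i ∈ F, y'' i = y' i) → y'' ∈ b := by
  obtain ⟨b, V, hb, hV, hyb, hhV, hbV⟩ := isOpen_prod_iff.1 hO y h hyh
  obtain ⟨F, w, hw, hwb⟩ := isOpen_pi_iff.1 hb y hyb
  refine ⟨F, (F : Set I).pi w, V, isOpen_set_pi F.finite_toSet fun i hi => (hw i hi).1, hV,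
    fun i hi => (hw i hi).2, hhV, (prod_mono_left hwb).trans hbV, ?_⟩
  intro y' hy' y'' h'' i hi
  rw [h'' i hi]
  exact hy' i hi

theorem proj_isOpenMap : IsOpenMap (proj H) := by
  intro U hU
  obtain ⟨O, hO, rfl⟩ := isOpen_induced_iff.1 hU
  rw [isOpen_iff_mem_nhds]
  rintro _ ⟨g, hg, rfl⟩
  obtain ⟨F, b, V, hb, hV, hyb, hhV, hbV, hF⟩ := exists_box hO (y := (g : (Idx H → Circle) × H).1)
    (h := (g : (Idx H → Circle) × H).2) hg
  refine mem_of_superset (hV.mem_nhds hhV) fun h hh => ?_
  obtain ⟨ξ, hξ, hξF⟩ := exists_gen (F : Set (Idx H)) F.countable_toSet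
    (g : (Idx H → Circle) × H).1 h
  refine ⟨gen ξ, hbV ⟨hF _ hyb _ hξF, ?_⟩, hξ⟩
  rw [gen_snd, hξ]
  exact hh

end top

end Pool.Agent.Zk90
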