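import Mathlib
import Pool.Agent.Zk90.Gen

/-!
# The generic group over a Baire group is a Baire space
-/

set_option autoImplicit false
set_option linter.unusedSectionVars false

open Set Topology Filter Pointwise

namespace Pool.Agent.Zk90

open Idx

universe u v

/-- a nonempty open subset of the torus which depends on finitely many coordinates -/
def IsBox {I : Type u} (b : Set (I → Circle)) : Prop :=
  IsOpen b ∧ b.Nonempty ∧ ∃ F : Finset I, ∀ y ∈ b, ∀ y' : I → Circle, (∀ i ∈ F, y' i = y i) → y' ∈ b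

variable {H : Type u} [CommGroup H] [TopologicalSpace H] [IsTopologicalGroup H]

/-- a condition: a box and a nonempty open subset of `H` -/
def Good (c : Set (Idx H → Circle) × Set H) : Prop := IsBox c.1 ∧ IsOpen c.2 ∧ c.2.Nonempty

/-- `c'` is a condition stronger than `c` which forces the element to lie in `O` -/
def Ext (O : Set ((Idx H → Circle) × H)) (c c' : Set (Idx H → Circle) × Set H) : Prop :=
  Good c' ∧ closure c'.1 ⊆ c.1 ∧ c'.2 ⊆ c.2 ∧ c'.1 ×ˢ c'.2 ⊆ O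

/-- an open set of the product whose intersection with the generic group is dense -/
def OD (O : Set ((Idx H → Circle) × H)) : Prop :=
  IsOpen O ∧ Dense (Subtype.val ⁻¹' O : Set (GG H))

theorem ext_exists {O : Set ((Idx H → Circle) × H)} (hO : OD O)
    {c : Set (Idx H → Circle) × Set H} (hc : Good c) {V : Set H} (hV : IsOpen V) (hVn : V.Nonempty)
    (hVc : V ⊆ c.2) : ∃ c', Ext O c c' ∧ c'.2 ⊆ V := by
  classical
  obtain ⟨⟨hb, ⟨y₀, hy₀⟩, F, hF⟩, -, -⟩ := hc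
  obtain ⟨h₀, hh₀⟩ := hVn
  -- the box meets the generic group
  obtain ⟨ξ, hξ, hξF⟩ := exists_gen (F : Set (Idx H)) F.countable_toSet y₀ h₀
  have h1 : gen ξ ∈ (Subtype.val ⁻¹' (c.1 ×ˢ V) : Set (GG H)) :=
    ⟨hF _ hy₀ _ hξF, by rw [gen_snd, hξ]; exact hh₀⟩
  have h2 : IsOpen (Subtype.val ⁻¹' (c.1 ×ˢ V) : Set (GG H)) :=
    (hb.prod hV).preimage continuous_subtype_val
  obtain ⟨g, hgO, hg⟩ := hO.2.inter_open_nonempty _ h2 ⟨_, h1⟩
  -- a closed neighbourhood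
  obtain ⟨N, hN, hNc, hNb⟩ := exists_mem_nhds_isClosed_subset (hb.mem_nhds hgO.1)
  have h3 : IsOpen (O ∩ (interior N) ×ˢ V) := hO.1.inter (isOpen_interior.prod hV)
  obtain ⟨F', b, V', hb', hV', hyb, hhV, hbV, hF'⟩ := exists_box h3
    (y := (g : (Idx H → Circle) × H).1) (h := (g : (Idx H → Circle) × H).2)
    ⟨hg, mem_interior_iff_mem_nhds.2 hN, hgO.2⟩
  have hbN : b ⊆ interior N := by
    intro y hy
    exact (hbV (show (y, (g : (Idx H → Circle) × H).2) ∈ b ×ˢ V' from ⟨hy, hhV⟩)).2.1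
  have hVV : V' ⊆ V := by
    intro h hh
    exact (hbV (show ((g : (Idx H → Circle) × H).1, h) ∈ b ×ˢ V' from ⟨hyb, hh⟩)).2.2
  refine ⟨(b, V'), ⟨⟨⟨hb', ⟨_, hyb⟩, F', hF'⟩, hV', ⟨_, hhV⟩⟩, ?_, hVV.trans hVc, fun p hp => (hbV hp).1⟩,
    hVV⟩
  exact (closure_minimal (hbN.trans interior_subset) hNc).trans hNb

theorem exists_family {O : Set ((Idx H → Circle) × H)} (hO : OD O)
    {c : Set (Idx H → Circle) × Set H} (hc : Good c) :
    ∃ A : Set (Set (Idx H → Circle) × Set H), (∀ c' ∈ A, Ext O c c') ∧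
      (∀ c' ∈ A, ∀ c'' ∈ A, (c'.2 ∩ c''.2).Nonempty → c' = c'') ∧
      c.2 ⊆ closure (⋃ c' ∈ A, c'.2) := by
  classical
  let S : Set (Set (Set (Idx H → Circle) × Set H)) := {A | (∀ c' ∈ A, Ext O c c') ∧
      (∀ c' ∈ A, ∀ c'' ∈ A, (c'.2 ∩ c''.2).Nonempty → c' = c'')}
  have hchain : ∀ 𝒞 ⊆ S, IsChain (· ⊆ ·) 𝒞 → ∃ ub ∈ S, ∀ s ∈ 𝒞, s ⊆ ub := by
    intro 𝒞 h𝒞 hch
    refine ⟨⋃₀ 𝒞, ⟨?_, ?_⟩, fun s hs => subset_sUnion_of_mem hs⟩
    · rintro c' ⟨A, hA, hc'⟩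
      exact (h𝒞 hA).1 c' hc'
    · rintro c' ⟨A, hA, hc'⟩ c'' ⟨B, hB, hc''⟩ hne
      rcases hch.total hA hB with h | h
      · exact (h𝒞 hB).2 c' (h hc') c'' hc'' hne
      · exact (h𝒞 hA).2 c' hc' c'' (h hc'') hne
  obtain ⟨A, hA⟩ := zorn_subset S hchain
  refine ⟨A, hA.1.1, hA.1.2, ?_⟩
  by_contra hcon
  have h1 : (c.2 ∩ (closure (⋃ c' ∈ A, c'.2))ᶜ).Nonempty := by
    obtain ⟨h, hh, hh'⟩ := not_subset.1 hcon
    exact ⟨h, hh, hh'⟩
  obtain ⟨c', hc', hc'V⟩ := ext_exists hO hc (hc.2.1.inter isClosed_closure.isOpen_compl) h1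
    inter_subset_left
  have hdisj : ∀ c'' ∈ A, ¬ (c'.2 ∩ c''.2).Nonempty := by
    rintro c'' hc'' ⟨h, hh, hh'⟩
    exact (hc'V hh).2 (subset_closure (mem_biUnion hc'' hh'))
  have h2 : insert c' A ∈ S := by
    refine ⟨?_, ?_⟩
    · rintro x (rfl | hx)
      · exact hc'
      · exact hA.1.1 x hx
    · rintro x (rfl | hx) y (rfl | hy) hne
      · rfl
      · exact absurd hne (hdisj y hy)
      · rw [inter_comm] at hne
        exact absurd hne (hdisj x hx)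
      · exact hA.1.2 x hx y hy hne
  have h3 : c' ∈ A := hA.2 h2 (subset_insert _ _) (mem_insert _ _)
  have h4 := hdisj c' h3
  rw [inter_self] at h4
  exact h4 hc'.1.2.2

/-- **The Baire property.** -/
theorem baire_GG [BaireSpace H] : BaireSpace (GG H) := by
  classical
  constructor
  intro f hfo hfd
  have hf' : ∀ n, ∃ O : Set ((Idx H → Circle) × H), IsOpen O ∧ Subtype.val ⁻¹' O = f n :=
    fun n => isOpen_induced_iff.1 (hfo n)
  choose O hO hOf using hf'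
  have hOD : ∀ n, OD (O n) := fun n => ⟨hO n, by rw [hOf]; exact hfd n⟩
  rw [dense_iff_inter_open]
  rintro W hW ⟨g₀, hg₀⟩
  obtain ⟨W', hW', rfl⟩ := isOpen_induced_iff.1 hW
  obtain ⟨F, b₀, V₀, hb₀, hV₀, hyb, hhV, hbV, hF⟩ := exists_box hW'
    (y := (g₀ : (Idx H → Circle) × H).1) (h := (g₀ : (Idx H → Circle) × H).2) hg₀
  have hc₀ : Good (b₀, V₀) := ⟨⟨hb₀, ⟨_, hyb⟩, F, hF⟩, hV₀, ⟨_, hhV⟩⟩
  -- the families
  have hfam : ∀ (n : ℕ) (c : Set (Idx H → Circle) × Set H), ∃ A : Set (Set (Idx H → Circle) × Set H),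
      Good c → (∀ c' ∈ A, Ext (O n) c c') ∧
      (∀ c' ∈ A, ∀ c'' ∈ A, (c'.2 ∩ c''.2).Nonempty → c' = c'') ∧
      c.2 ⊆ closure (⋃ c' ∈ A, c'.2) := by
    intro n c
    by_cases hc : Good c
    · obtain ⟨A, hA⟩ := exists_family (hOD n) hc
      exact ⟨A, fun _ => hA⟩
    · exact ⟨∅, fun h => absurd h hc⟩
  choose A hA using hfam
  let 𝒱 : ℕ → Set (Set (Idx H → Circle) × Set H) := fun n =>
    Nat.rec {(b₀, V₀)} (fun n 𝒜 => ⋃ c ∈ 𝒜, A n c) n
  have h𝒱0 : 𝒱 0 = {(b₀, V₀)} := rfl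
  have h𝒱s : ∀ n, 𝒱 (n + 1) = ⋃ c ∈ 𝒱 n, A n c := fun n => rfl
  have hgood : ∀ n, ∀ c ∈ 𝒱 n, Good c := by
    intro n
    induction n with
    | zero =>
      intro c hc
      rw [h𝒱0, mem_singleton_iff] at hc
      rw [hc]
      exact hc₀
    | succ n ih =>
      intro c hc
      rw [h𝒱s] at hc
      obtain ⟨c', hc', hc⟩ := mem_iUnion₂.1 hc
      exact ((hA n c' (ih c' hc')).1 c hc).1
  have hdisj : ∀ n, ∀ c ∈ 𝒱 n, ∀ c' ∈ 𝒱 n, (c.2 ∩ c'.2).Nonempty → c = c' := by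
    intro n
    induction n with
    | zero =>
      intro c hc c' hc' _
      rw [h𝒱0, mem_singleton_iff] at hc hc'
      rw [hc, hc']
    | succ n ih =>
      intro c hc c' hc' hne
      rw [h𝒱s] at hc hc'
      obtain ⟨d, hd, hc⟩ := mem_iUnion₂.1 hc
      obtain ⟨d', hd', hc'⟩ := mem_iUnion₂.1 hc'
      have h1 := hA n d (hgood n d hd)
      have h2 := hA n d' (hgood n d' hd')
      have h3 : d = d' := ih d hd d' hd' (hne.mono (inter_subset_inter (h1.1 c hc).2.2.1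
        (h2.1 c' hc').2.2.1))
      subst h3
      exact h1.2.1 c hc c' hc' hne
  have hdense : ∀ n, V₀ ⊆ closure (⋃ c ∈ 𝒱 n, c.2) := by
    intro n
    induction n with
    | zero =>
      rw [h𝒱0, biUnion_singleton]
      exact subset_closure
    | succ n ih =>
      refine ih.trans (closure_minimal ?_ isClosed_closure)
      refine iUnion₂_subset fun c hc => ?_
      refine (hA n c (hgood n c hc)).2.2.trans (closure_mono ?_)
      rw [h𝒱s]
      refine iUnion₂_subset fun c' hc' => ?_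
      exact subset_biUnion_of_mem (u := fun c : Set (Idx H → Circle) × Set H => c.2)
        (mem_biUnion hc hc')
  -- a generic element of `H`
  have hDo : ∀ n, IsOpen ((⋃ c ∈ 𝒱 n, c.2) ∪ (closure V₀)ᶜ) := fun n =>
    (isOpen_biUnion fun c hc => (hgood n c hc).2.1).union isClosed_closure.isOpen_compl
  have hDd : ∀ n, Dense ((⋃ c ∈ 𝒱 n, c.2) ∪ (closure V₀)ᶜ) := by
    intro n h
    by_cases hh : h ∈ closure V₀
    · exact closure_mono subset_union_left (closure_minimal (hdense n) isClosed_closure hh)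
    · exact subset_closure (Or.inr hh)
  obtain ⟨h, hhV₀, hh⟩ := (dense_iInter_of_isOpen hDo hDd).inter_open_nonempty V₀ hV₀ ⟨_, hhV⟩
  have hhD : ∀ n, ∃ c ∈ 𝒱 n, h ∈ c.2 := by
    intro n
    rcases mem_iInter.1 hh n with h1 | h1
    · obtain ⟨c, hc, hhc⟩ := mem_iUnion₂.1 h1
      exact ⟨c, hc, hhc⟩
    · exact absurd (subset_closure hhV₀) h1
  choose c hc𝒱 hhc using hhD
  have hc0 : c 0 = (b₀, V₀) := by
    have := hc𝒱 0
    rwa [h𝒱0, mem_singleton_iff] at this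
  have hcs : ∀ n, Ext (O n) (c n) (c (n + 1)) := by
    intro n
    have h1 := hc𝒱 (n + 1)
    rw [h𝒱s] at h1
    obtain ⟨d, hd, hcd⟩ := mem_iUnion₂.1 h1
    have h2 := (hA n d (hgood n d hd)).1 _ hcd
    have h3 : d = c n := hdisj n d hd (c n) (hc𝒱 n) ⟨h, h2.2.2.1 (hhc (n + 1)), hhc n⟩
    rw [← h3]
    exact h2
  -- a point in all boxes
  have hmono : ∀ n, (c (n + 1)).1 ⊆ (c n).1 := fun n => subset_closure.trans (hcs n).2.1
  obtain ⟨Y, hY⟩ : (⋂ n, closure (c n).1).Nonempty := by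
    refine IsCompact.nonempty_iInter_of_sequence_nonempty_isCompact_isClosed _ ?_ ?_ ?_ ?_
    · intro n
      exact closure_mono (hmono n)
    · intro n
      exact (hgood n _ (hc𝒱 n)).1.2.1.closure
    · exact isClosed_closure.isCompact
    · intro n
      exact isClosed_closure
  have hYc : ∀ n, Y ∈ (c n).1 := fun n => (hcs n).2.1 (mem_iInter.1 hY (n + 1))
  have hsupp : ∀ n, ∃ F : Finset (Idx H), ∀ y ∈ (c n).1, ∀ y' : Idx H → Circle,
      (∀ i ∈ F, y' i = y i) → y' ∈ (c n).1 := fun n => (hgood n _ (hc𝒱 n)).1.2.2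
  choose G hG using hsupp
  obtain ⟨ξ, hξ, hξG⟩ := exists_gen (⋃ n, (G n : Set (Idx H)))
    (countable_iUnion fun n => (G n).countable_toSet) Y h
  have hmem : ∀ n, (fun ν => mat ξ ν) ∈ (c n).1 := fun n =>
    hG n Y (hYc n) _ fun i hi => hξG i (mem_iUnion.2 ⟨n, hi⟩)
  refine ⟨gen ξ, hbV ⟨?_, ?_⟩, ?_⟩
  · have := hmem 0
    rw [hc0] at this
    exact this
  · rw [gen_snd, hξ]
    exact hhV₀
  · rw [mem_iInter]
    intro n
    rw [← hOf n]
    refine (hcs n).2.2.2 ⟨hmem (n + 1), ?_⟩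
    rw [gen_snd, hξ]
    exact hhc (n + 1)

end Pool.Agent.Zk90
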