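import Mathlib
import Pool.Agent.TH264.Bridge.PW
import Pool.Agent.Zk90.Polar

/-!
# The topology of a precompact abelian group is induced by its characters
-/

set_option autoImplicit false

open Set Topology Filter Pointwise UniformSpace

namespace Pool.Agent.Zk90

universe u v

theorem inducing_chars (H : Type u) [CommGroup H] [TopologicalSpace H] [IsTopologicalGroup H]
    [T2Space H] (hH : Precompact H) : IsInducing fun (h : H) (χ : PontryaginDual H) => χ h := by
  let _ : UniformSpace (Additive H) := IsTopologicalAddGroup.rightUniformSpace (Additive H)
  have : IsUniformAddGroup (Additive H) := isUniformAddGroup_of_addCommGroup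
  have htb : TotallyBounded (univ : Set (Additive H)) := by
    rw [totallyBounded_iff_subset_finite_iUnion_nhds_zero]
    intro U hU
    let U' : Set H := U
    obtain ⟨F, hF, hFU⟩ := hH U' hU
    refine ⟨F, hF, fun x _ => ?_⟩
    have hx : (Additive.toMul x) ∈ F * U' := by rw [hFU]; trivial
    obtain ⟨f, hf, v, hv, hfv⟩ := hx
    refine mem_iUnion₂.2 ⟨f, hf, ?_⟩
    exact ⟨v, hv, hfv⟩
  let K := Completion (Additive H)
  have hcK : IsCompact (univ : Set K) := by
    have h1 : TotallyBounded (range ((↑) : Additive H → K)) := by
      rw [← image_univ]
      exact htb.image (Completion.uniformContinuous_coe _)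
    have h2 := h1.closure
    rw [Completion.denseRange_coe.closure_range] at h2
    exact isCompact_iff_totallyBounded_isComplete.2 ⟨h2, completeSpace_iff_isComplete_univ.1 inferInstance⟩
  have : CompactSpace K := ⟨hcK⟩
  have : CompactSpace (Multiplicative K) := ‹CompactSpace K›
  have : T2Space (Multiplicative K) := inferInstanceAs (T2Space K)
  let XK : Type u := {χ : Multiplicative K →* Circle // Continuous χ}
  let E : K → (XK → Circle) := fun k χ => χ.1 (Multiplicative.ofAdd k)
  have hEc : Continuous E := continuous_pi fun χ => χ.2
  have hEi : Function.Injective E := by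
    intro k l hkl
    by_contra hne
    obtain ⟨χ, hχ, hχk⟩ := Pool.Agent.TH264.Bridge.char_sep_mul (Multiplicative K)
      (Multiplicative.ofAdd (k - l)) (fun h => hne (sub_eq_zero.1 h))
    apply hχk
    have h1 := congrFun hkl ⟨χ, hχ⟩
    rw [ofAdd_sub, map_div]
    exact div_eq_one.2 h1
  have hE : IsInducing E := (hEc.isClosedEmbedding hEi).isInducing
  have hcomp : IsInducing (fun h : H => E ((Additive.ofMul h : Additive H) : K)) :=
    hE.comp (Completion.isDenseInducing_coe (α := Additive H)).isInducing
  let r : XK → PontryaginDual H := fun χ =>
    { toFun := fun h => χ.1 (Multiplicative.ofAdd ((Additive.ofMul h : Additive H) : K))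
      map_one' := by
        rw [ofMul_one, Completion.coe_zero, ofAdd_zero, map_one]
      map_mul' := fun g h => by
        rw [ofMul_mul, Completion.coe_add, ofAdd_add, map_mul]
      continuous_toFun := by
        have h1 : Continuous fun k : K => χ.1 (Multiplicative.ofAdd k) := χ.2
        exact h1.comp (Completion.continuous_coe (Additive H)) }
  have hfc : Continuous fun (h : H) (χ : PontryaginDual H) => χ h :=
    continuous_pi fun χ => χ.continuous_toFun
  have hrc : Continuous fun (y : PontryaginDual H → Circle) (χ : XK) => y (r χ) :=
    continuous_pi fun χ => continuous_apply _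
  exact IsInducing.of_comp hfc hrc hcomp

end Pool.Agent.Zk90
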