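import Mathlib
import Pool.Agent.R821.Duality
import Pool.Agent.R821.Precompact
import Pool.Agent.Zk90.Baire
import Pool.Agent.Zk90.PC

/-!
# Precompact abelian Baire groups are quotients of reflexive precompact Baire groups
-/

set_option autoImplicit false
set_option linter.unusedSectionVars false

open Set Topology Filter Pointwise

namespace Pool.Agent.Zk90

universe u v

/-- An abelian topological group `G` is reflexive: the evaluation map `g ↦ (χ ↦ χ g)` is a topological
isomorphism of `G` onto the dual of its dual. Here `PontryaginDual G` is the group of continuous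
homomorphisms from `G` to the circle with the compact-open topology. -/
def Reflexive (G : Type u) [CommGroup G] [TopologicalSpace G] : Prop :=
  ∃ α : G ≃ₜ* PontryaginDual (PontryaginDual G), ∀ (g : G) (χ : PontryaginDual G), α g χ = χ g

/-- if all compact sets are finite then the compact-open topology is the topology of pointwise
convergence -/
theorem inducing_coe {Y Z : Type*} [TopologicalSpace Y] [TopologicalSpace Z]
    (h : ∀ K : Set Y, IsCompact K → K.Finite) : IsInducing fun (f : C(Y, Z)) (y : Y) => f y := by
  constructor
  apply le_antisymm
  · apply continuous_iff_le_induced.1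
    exact continuous_pi fun y => ContinuousEvalConst.continuous_eval_const y
  · rw [ContinuousMap.compactOpen_eq]
    apply le_generateFrom
    rintro _ ⟨K, hK, U, hU, rfl⟩
    have h1 : {f : C(Y, Z) | Set.MapsTo f K U} =
        (fun (f : C(Y, Z)) (y : Y) => f y) ⁻¹' (⋂ y ∈ K, {g : Y → Z | g y ∈ U}) := by
      ext f
      simp [Set.MapsTo]
    have h2 : IsOpen (⋂ y ∈ K, {g : Y → Z | g y ∈ U}) := by
      refine (h K hK).isOpen_biInter fun y _ => ?_
      have hU' : IsOpen U := hU
      exact hU'.preimage (continuous_apply y)
    exact isOpen_induced_iff.2 ⟨_, h2, h1.symm⟩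

theorem dual_inducing {A : Type*} [Monoid A] [TopologicalSpace A]
    (hK : ∀ K : Set A, IsCompact K → K.Finite) :
    IsInducing fun (χ : PontryaginDual A) (a : A) => χ a :=
  (inducing_coe hK).comp (ContinuousMonoidHom.isInducing_toContinuousMap A Circle)

/-- the evaluations at elements of a group are continuous on the dual group -/
theorem continuous_eval {A : Type*} [Monoid A] [TopologicalSpace A] (a : A) :
    Continuous fun χ : PontryaginDual A => χ a := by
  have h1 := (ContinuousMonoidHom.isInducing_toContinuousMap A Circle).continuous
  have h2 : Continuous fun f : C(A, Circle) => f a := ContinuousEvalConst.continuous_eval_const a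
  exact h2.comp h1

/-- logarithm of the circle -/
noncomputable def lg : Circle ≃ₜ UnitAddCircle := (AddCircle.homeomorphCircle one_ne_zero).symm

theorem toCircle_lg (z : Circle) : AddCircle.toCircle (lg z) = z := by
  have h := (AddCircle.homeomorphCircle (T := 1) one_ne_zero).apply_symm_apply z
  rw [AddCircle.homeomorphCircle_apply] at h
  exact h

theorem lg_mul (z w : Circle) : lg (z * w) = lg z + lg w := by
  apply AddCircle.injective_toCircle (T := 1) one_ne_zero
  rw [AddCircle.toCircle_add, toCircle_lg, toCircle_lg, toCircle_lg]

theorem lg_one : lg 1 = 0 := by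
  have h := lg_mul 1 1
  rw [one_mul] at h
  exact left_eq_add.1 h

/-- a group with the topology of its characters all of whose compact subsets, and all of whose dual's
compact subsets, are finite is reflexive -/
theorem reflexive_of {G : Type u} [CommGroup G] [TopologicalSpace G] [T2Space G]
    (hind : IsInducing fun (g : G) (χ : PontryaginDual G) => χ g)
    (hK : ∀ K : Set G, IsCompact K → K.Finite)
    (hKd : ∀ K : Set (PontryaginDual G), IsCompact K → K.Finite) : Reflexive G := by
  classical
  have hP := dual_inducing hK
  have hPP := dual_inducing hKd
  let α : G →* PontryaginDual (PontryaginDual G) :=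
    { toFun := fun g =>
        { toFun := fun χ => χ g
          map_one' := rfl
          map_mul' := fun _ _ => rfl
          continuous_toFun := continuous_eval g }
      map_one' := by
        ext χ
        exact congrArg _ (map_one χ)
      map_mul' := fun g h => by
        ext χ
        exact congrArg _ (map_mul χ g h) }
  have hα : ∀ g χ, α g χ = χ g := fun g χ => rfl
  have hαind : IsInducing α := by
    rw [← hPP.of_comp_iff]
    exact hind
  have hαinj : Function.Injective α := hαind.injective
  have hαsurj : Function.Surjective α := by
    intro θ
    let e : Additive G →+ (Additive (PontryaginDual G) →+ Pool.Agent.R821.T) :=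
      { toFun := fun x =>
          { toFun := fun χ => lg (χ.toMul x.toMul)
            map_zero' := lg_one
            map_add' := fun χ ψ => lg_mul _ _ }
        map_zero' := by
          refine AddMonoidHom.ext fun χ => ?_
          change lg ((Additive.toMul χ : PontryaginDual G) 1) = 0
          rw [map_one, lg_one]
        map_add' := fun x y => by
          refine AddMonoidHom.ext fun χ => ?_
          change lg ((Additive.toMul χ : PontryaginDual G) (x.toMul * y.toMul)) =
            lg ((Additive.toMul χ : PontryaginDual G) x.toMul) +
              lg ((Additive.toMul χ : PontryaginDual G) y.toMul)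
          rw [map_mul, lg_mul] }
    have he : IsInducing fun (χ : Additive (PontryaginDual G)) (x : Additive G) => e x χ :=
      (Homeomorph.piCongrRight fun _ : G => lg).isInducing.comp hP
    let v : Additive (PontryaginDual G) →+ Pool.Agent.R821.T :=
      { toFun := fun χ => lg (θ χ.toMul)
        map_zero' := by
          change lg (θ 1) = 0
          rw [map_one, lg_one]
        map_add' := fun χ ψ => by
          change lg (θ (χ.toMul * ψ.toMul)) = lg (θ χ.toMul) + lg (θ ψ.toMul)
          rw [map_mul, lg_mul] }
    have hv : Continuous v := lg.continuous.comp θ.continuous_toFun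
    obtain ⟨x, hx⟩ := Pool.Agent.R821.char_of_continuous e he v hv
    refine ⟨x.toMul, ?_⟩
    ext χ
    have h1 : lg (χ x.toMul) = lg (θ χ) := DFunLike.congr_fun hx (Additive.ofMul χ)
    exact congrArg _ (lg.injective h1)
  let E : G ≃* PontryaginDual (PontryaginDual G) := MulEquiv.ofBijective α ⟨hαinj, hαsurj⟩
  refine ⟨{ toMulEquiv := E
            continuous_toFun := hαind.continuous
            continuous_invFun := ?_ }, fun g χ => rfl⟩
  rw [hαind.continuous_iff]
  have : (α ∘ E.invFun) = id := by
    funext θ
    exact E.apply_symm_apply θ
  rw [this]
  exact continuous_id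

/-- compact subsets of the dual of a precompact Baire group are finite -/
theorem dual_compact_finite {G : Type u} [CommGroup G] [TopologicalSpace G] [IsTopologicalGroup G]
    [BaireSpace G] (hG : Precompact G) (K : Set (PontryaginDual G)) (hK : IsCompact K) :
    K.Finite := by
  classical
  by_contra hinf
  have : Infinite K := Set.infinite_coe_iff.2 hinf
  have : CompactSpace K := isCompact_iff_compactSpace.1 hK
  refine key (G := G) hG (C := K) (fun χ => (χ.1 : G →* Circle)) ?_ (fun χ => χ.1.continuous_toFun) ?_
  · intro χ ψ h
    apply Subtype.ext
    ext g
    exact congrArg _ (DFunLike.congr_fun h g)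
  · intro Q _ g
    exact ⟨fun χ => χ.1 g, (continuous_eval g).comp continuous_subtype_val, fun χ _ => rfl⟩

section

variable {H : Type u} [CommGroup H] [TopologicalSpace H] [IsTopologicalGroup H] [T2Space H]

/-- the topology of the generic group is induced by a homomorphism to a compact group -/
theorem GG_inducing (hH : Precompact H) : IsInducing fun g : GG H =>
    ((g : (Idx H → Circle) × H).1, fun χ : PontryaginDual H => χ (g : (Idx H → Circle) × H).2) := by
  have h1 : IsInducing (Prod.map (id : (Idx H → Circle) → (Idx H → Circle))
      fun (h : H) (χ : PontryaginDual H) => χ h) := IsInducing.id.prodMap (inducing_chars H hH)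
  exact h1.comp IsInducing.subtypeVal

theorem GG_precompact (hH : Precompact H) : Precompact (GG H) := by
  intro U hU
  let C := (Additive (Idx H → Circle)) × (Additive (PontryaginDual H → Circle))
  let φ : Additive (GG H) →+ C :=
    { toFun := fun g => (Additive.ofMul (g.toMul : (Idx H → Circle) × H).1,
        Additive.ofMul fun χ : PontryaginDual H => χ (g.toMul : (Idx H → Circle) × H).2)
      map_zero' := by
        refine Prod.ext rfl ?_
        change (fun χ : PontryaginDual H => χ 1) = fun _ => 1
        funext χ
        exact map_one χ
      map_add' := fun g h => by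
        refine Prod.ext rfl ?_
        change (fun χ : PontryaginDual H => χ _) = fun χ : PontryaginDual H => χ _ * χ _
        funext χ
        exact map_mul χ _ _ }
  have hφ : IsInducing φ := GG_inducing hH
  have : CompactSpace C := inferInstanceAs (CompactSpace ((Idx H → Circle) × (PontryaginDual H → Circle)))
  let U' : Set (Additive (GG H)) := U
  obtain ⟨E, hE, hUE⟩ := Pool.Agent.R821.totBdd_of_inducing (C := C) φ hφ U' hU
  refine ⟨E, hE, eq_univ_of_forall fun x => ?_⟩
  have hx : Additive.ofMul x ∈ U' + E := by rw [hUE]; trivial
  obtain ⟨y, hy, z, hz, hyz⟩ := hx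
  refine ⟨z, hz, y, hy, ?_⟩
  change z.toMul * y.toMul = x
  rw [mul_comm]
  exact hyz

theorem GG_inducing_chars (hH : Precompact H) :
    IsInducing fun (g : GG H) (χ : PontryaginDual (GG H)) => χ g := by
  have h1 := GG_inducing hH
  let a : Idx H → PontryaginDual (GG H) := fun ν =>
    { toFun := fun g => (g : (Idx H → Circle) × H).1 ν
      map_one' := rfl
      map_mul' := fun _ _ => rfl
      continuous_toFun := by fun_prop }
  let b : PontryaginDual H → PontryaginDual (GG H) := fun χ =>
    { toFun := fun g => χ (g : (Idx H → Circle) × H).2
      map_one' := map_one χ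
      map_mul' := fun g h => map_mul χ _ _
      continuous_toFun := χ.continuous_toFun.comp (by fun_prop) }
  have hr : Continuous fun y : PontryaginDual (GG H) → Circle =>
      ((fun ν => y (a ν) : Idx H → Circle), (fun χ => y (b χ) : PontryaginDual H → Circle)) := by
    fun_prop
  have hf : Continuous fun (g : GG H) (χ : PontryaginDual (GG H)) => χ g :=
    continuous_pi fun χ => χ.continuous_toFun
  exact IsInducing.of_comp hf hr h1

/-- **The main theorem.** -/
theorem main [BaireSpace H] (hH : Precompact H) :
    ∃ (G : Type u) (_ : CommGroup G) (_ : TopologicalSpace G) (_ : IsTopologicalGroup G)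
      (_ : T2Space G), Precompact G ∧ BaireSpace G ∧ Reflexive G ∧
      (∀ K : Set G, IsCompact K → K.Finite) ∧
      ∃ N : Subgroup G, IsClosed (N : Set G) ∧ Nonempty ((G ⧸ N) ≃ₜ* H) := by
  have hB : BaireSpace (GG H) := baire_GG
  have hP := GG_precompact hH
  refine ⟨GG H, inferInstance, inferInstance, inferInstance, inferInstance, hP, hB,
    reflexive_of (GG_inducing_chars hH) (fun K hK => compact_finite hK)
      (fun K hK => dual_compact_finite hP K hK), fun K hK => compact_finite hK,
    (proj H).ker, ?_, ?_⟩
  · have : ((proj H).ker : Set (GG H)) = proj H ⁻¹' {1} := rfl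
    rw [this]
    exact isClosed_singleton.preimage proj_continuous
  · let e : (GG H ⧸ (proj H).ker) ≃* H :=
      QuotientGroup.quotientKerEquivOfSurjective (proj H) proj_surjective
    have he : ∀ g : GG H, e (QuotientGroup.mk g) = proj H g := fun g => rfl
    refine ⟨{ toMulEquiv := e
              continuous_toFun := ?_
              continuous_invFun := ?_ }⟩
    · exact continuous_quot_lift _ proj_continuous
    · have hq : IsQuotientMap (proj H) :=
        (proj_isOpenMap (H := H)).isQuotientMap proj_continuous proj_surjective
      rw [hq.continuous_iff]
      have h1 : e.invFun ∘ proj H = QuotientGroup.mk := by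
        funext g
        change e.symm (proj H g) = _
        rw [← he, e.symm_apply_apply]
      rw [h1]
      exact continuous_quot_mk

end

end Pool.Agent.Zk90
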