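import Pool.Agent.Zk39.MC.Def

/-!
# The functions of bounded mean complexity form an algebra
-/

set_option autoImplicit false

open Finset Filter Topology

namespace Pool.Agent.Zk90.BA

open Pool.Agent.Zk39.MC

lemma mostly_univ {Y : Type} {S : Y → Y} {P : Set Y} {δ : ℝ} (hδ : 0 ≤ δ) :
    Mostly S P Set.univ δ :=
  ⟨0, fun N _ _ _ => ⟨∅, fun _ _ h => (h (Set.mem_univ _)).elim, by
    rw [Finset.card_empty, Nat.cast_zero]
    positivity⟩⟩

lemma mostly_inter {Y : Type} {S : Y → Y} {P G G' : Set Y} {δ δ' ε : ℝ} (h : Mostly S P G δ)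
    (h' : Mostly S P G' δ') (hε : δ + δ' ≤ ε) : Mostly S P (G ∩ G') ε := by
  classical
  obtain ⟨N₀, h⟩ := h
  obtain ⟨N₁, h'⟩ := h'
  refine ⟨max N₀ N₁, fun N hN y hy => ?_⟩
  obtain ⟨V, hV, hV'⟩ := h N ((le_max_left _ _).trans hN) y hy
  obtain ⟨W, hW, hW'⟩ := h' N ((le_max_right _ _).trans hN) y hy
  refine ⟨V ∪ W, ?_, ?_⟩
  · intro n hn hnG
    rw [Finset.mem_union]
    by_cases h1 : S^[n] y ∈ G
    · right
      exact hW n hn (fun h2 => hnG ⟨h1, h2⟩)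
    · left
      exact hV n hn h1
  · have h1 : ((V ∪ W).card : ℝ) ≤ V.card + W.card := by exact_mod_cast Finset.card_union_le V W
    have h2 : (δ + δ') * N ≤ ε * N := mul_le_mul_of_nonneg_right hε (Nat.cast_nonneg _)
    linarith

/-- a function which is controlled by two functions of bounded mean complexity, up to small errors -/
lemma bdd_of {X Y : Type} [TopologicalSpace Y] {S : Y → Y} {P : Set Y} {T : X → X} {π : X → Y}
    {F : X → ℂ} (h : ∀ η : ℝ, 0 < η → ∃ (F₁ F₂ : X → ℂ) (A B : ℝ), 0 ≤ A ∧ 0 ≤ B ∧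
      Bdd S P T π F₁ ∧ Bdd S P T π F₂ ∧
      ∀ x x', ‖F x - F x'‖ ≤ A * ‖F₁ x - F₁ x'‖ + B * ‖F₂ x - F₂ x'‖ + η) :
    Bdd S P T π F := by
  intro δ hδ
  obtain ⟨F₁, F₂, A, B, hA, hB, h1, h2, hF⟩ := h (δ / 3) (by positivity)
  obtain ⟨K₁, G₁, hG₁, hM₁, hK₁⟩ := h1 (min (δ / 2) (δ / (3 * (A + 1)))) (by positivity)
  obtain ⟨K₂, G₂, hG₂, hM₂, hK₂⟩ := h2 (min (δ / 2) (δ / (3 * (B + 1)))) (by positivity)
  refine ⟨K₁ * K₂, G₁ ∩ G₂, hG₁.inter hG₂, mostly_inter hM₁ hM₂ ?_, ?_⟩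
  · have := min_le_left (δ / 2) (δ / (3 * (A + 1)))
    have := min_le_left (δ / 2) (δ / (3 * (B + 1)))
    linarith
  intro H y hy
  obtain ⟨κ₁, hκ₁⟩ := hK₁ H y hy.1
  obtain ⟨κ₂, hκ₂⟩ := hK₂ H y hy.2
  refine ⟨fun x => finProdFinEquiv (κ₁ x, κ₂ x), ?_⟩
  intro x x' hx hx' hκ
  have hκ' := finProdFinEquiv.injective hκ
  rw [Prod.mk.injEq] at hκ'
  have e1 := hκ₁ x x' hx hx' hκ'.1
  have e2 := hκ₂ x x' hx hx' hκ'.2
  have e3 : ∑ m ∈ range H, ‖F (T^[m] x) - F (T^[m] x')‖ ≤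
      A * ∑ m ∈ range H, ‖F₁ (T^[m] x) - F₁ (T^[m] x')‖ +
        B * ∑ m ∈ range H, ‖F₂ (T^[m] x) - F₂ (T^[m] x')‖ + δ / 3 * H := by
    calc ∑ m ∈ range H, ‖F (T^[m] x) - F (T^[m] x')‖
        ≤ ∑ m ∈ range H, (A * ‖F₁ (T^[m] x) - F₁ (T^[m] x')‖ +
            B * ‖F₂ (T^[m] x) - F₂ (T^[m] x')‖ + δ / 3) := Finset.sum_le_sum (fun m _ => hF _ _)
      _ = _ := by
        rw [Finset.sum_add_distrib, Finset.sum_add_distrib, ← Finset.mul_sum, ← Finset.mul_sum,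
          Finset.sum_const, Finset.card_range, nsmul_eq_mul, mul_comm (H : ℝ)]
  have key : ∀ (C : ℝ), 0 ≤ C → C * (min (δ / 2) (δ / (3 * (C + 1))) * H) ≤ δ / 3 * H := by
    intro C hC
    have f1 : min (δ / 2) (δ / (3 * (C + 1))) ≤ δ / (3 * (C + 1)) := min_le_right _ _
    have f2 : C * (δ / (3 * (C + 1))) ≤ δ / 3 := by
      have f3 : δ / (3 * (C + 1)) = (δ / 3) * (1 / (C + 1)) := by field_simp
      have f4 : C * (1 / (C + 1)) ≤ 1 := by
        rw [mul_one_div, div_le_one (by positivity)]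
        linarith
      calc C * (δ / (3 * (C + 1))) = (δ / 3) * (C * (1 / (C + 1))) := by rw [f3]; ring
        _ ≤ (δ / 3) * 1 := mul_le_mul_of_nonneg_left f4 (by positivity)
        _ = δ / 3 := by ring
    calc C * (min (δ / 2) (δ / (3 * (C + 1))) * H) = (C * min (δ / 2) (δ / (3 * (C + 1)))) * H := by
          ring
      _ ≤ (C * (δ / (3 * (C + 1)))) * H :=
          mul_le_mul_of_nonneg_right (mul_le_mul_of_nonneg_left f1 hC) (Nat.cast_nonneg _)
      _ ≤ δ / 3 * H := mul_le_mul_of_nonneg_right f2 (Nat.cast_nonneg _)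
  have e4 := mul_le_mul_of_nonneg_left e1 hA
  have e5 := mul_le_mul_of_nonneg_left e2 hB
  have e6 := key A hA
  have e7 := key B hB
  linarith

/-- functions which are constant on the fibres at all times -/
lemma bdd_base {X Y : Type} [TopologicalSpace Y] {S : Y → Y} {P : Set Y} {T : X → X} {π : X → Y}
    (hπT : ∀ x, π (T x) = S (π x)) (c : Y → ℂ) : Bdd S P T π (fun x => c (π x)) := by
  intro δ hδ
  refine ⟨1, Set.univ, isClosed_univ, mostly_univ hδ.le, ?_⟩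
  intro H y _
  refine ⟨fun _ => 0, ?_⟩
  intro x x' hx hx' _
  have hit : ∀ (m : ℕ) (z : X), π (T^[m] z) = S^[m] (π z) := by
    intro m
    induction m with
    | zero => intro z; rfl
    | succ m ih =>
      intro z
      rw [Function.iterate_succ_apply, Function.iterate_succ_apply, ih, hπT]
  have h0 : ∑ m ∈ range H, ‖c (π (T^[m] x)) - c (π (T^[m] x'))‖ = 0 := by
    refine Finset.sum_eq_zero (fun m _ => ?_)
    rw [hit, hit, hx, hx', sub_self, norm_zero]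
  rw [h0]
  positivity

lemma bdd_const {X Y : Type} [TopologicalSpace Y] {S : Y → Y} {P : Set Y} {T : X → X} {π : X → Y}
    (c : ℂ) : Bdd S P T π (fun _ => c) := by
  intro δ hδ
  refine ⟨1, Set.univ, isClosed_univ, mostly_univ hδ.le, ?_⟩
  intro H y _
  refine ⟨fun _ => 0, ?_⟩
  intro x x' hx hx' _
  simp only [sub_self, norm_zero, Finset.sum_const_zero]
  positivity

/-- the star subalgebra of the functions of bounded mean complexity -/
noncomputable def alg {X Y : Type} [TopologicalSpace X] [CompactSpace X] [TopologicalSpace Y]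
    (S : Y → Y) (P : Set Y) (T : X → X) (π : X → Y) : StarSubalgebra ℂ C(X, ℂ) where
  carrier := {F | Bdd S P T π F}
  mul_mem' := by
    intro F G hF hG
    refine bdd_of (fun η hη => ⟨F, G, ‖G‖, ‖F‖, norm_nonneg _, norm_nonneg _, hF, hG, ?_⟩)
    intro x x'
    have e : (F * G) x - (F * G) x' = (F x - F x') * G x + F x' * (G x - G x') := by
      rw [ContinuousMap.mul_apply, ContinuousMap.mul_apply]
      ring
    rw [e]
    have h1 : ‖G x‖ ≤ ‖G‖ := G.norm_coe_le_norm x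
    have h2 : ‖F x'‖ ≤ ‖F‖ := F.norm_coe_le_norm x'
    calc ‖(F x - F x') * G x + F x' * (G x - G x')‖
        ≤ ‖(F x - F x') * G x‖ + ‖F x' * (G x - G x')‖ := norm_add_le _ _
      _ = ‖G x‖ * ‖F x - F x'‖ + ‖F x'‖ * ‖G x - G x'‖ := by
        rw [norm_mul, norm_mul, mul_comm ‖F x - F x'‖]
      _ ≤ ‖G‖ * ‖F x - F x'‖ + ‖F‖ * ‖G x - G x'‖ := by
        refine add_le_add (mul_le_mul_of_nonneg_right h1 (norm_nonneg _))
          (mul_le_mul_of_nonneg_right h2 (norm_nonneg _))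
      _ ≤ _ := by linarith
  add_mem' := by
    intro F G hF hG
    refine bdd_of (fun η hη => ⟨F, G, 1, 1, zero_le_one, zero_le_one, hF, hG, ?_⟩)
    intro x x'
    have e : (F + G) x - (F + G) x' = (F x - F x') + (G x - G x') := by
      rw [ContinuousMap.add_apply, ContinuousMap.add_apply]
      ring
    rw [e]
    have := norm_add_le (F x - F x') (G x - G x')
    linarith
  algebraMap_mem' := by
    intro c
    exact bdd_const (T := T) c
  star_mem' := by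
    intro F hF
    refine bdd_of (fun η hη => ⟨F, F, 1, 0, zero_le_one, le_refl _, hF, hF, ?_⟩)
    intro x x'
    have e : (star F) x - (star F) x' = star (F x - F x') := by
      rw [ContinuousMap.star_apply, ContinuousMap.star_apply, star_sub]
    rw [e, norm_star]
    linarith

theorem bdd_all {X Y : Type} [TopologicalSpace X] [CompactSpace X] [TopologicalSpace Y]
    [CompactSpace Y] [T2Space Y] {S : Y → Y} {P : Set Y} {T : X → X} {π : X → Y}
    (hπ : Continuous π) (hπT : ∀ x, π (T x) = S (π x)) (𝓕 : Set (X → ℂ))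
    (hc : ∀ F ∈ 𝓕, Continuous F) (hB : ∀ F ∈ 𝓕, Bdd S P T π F)
    (hsep : ∀ x x', π x = π x' → (∀ F ∈ 𝓕, F x = F x') → x = x') (F : C(X, ℂ)) :
    Bdd S P T π F := by
  have hA : (alg S P T π).SeparatesPoints := by
    intro x x' hxx
    by_cases hp : π x = π x'
    · have h1 : ∃ F ∈ 𝓕, F x ≠ F x' := by
        by_contra h
        push Not at h
        exact hxx (hsep x x' hp h)
      obtain ⟨F, hF, hFx⟩ := h1
      refine ⟨F, ⟨⟨F, hc F hF⟩, hB F hF, rfl⟩, hFx⟩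
    · obtain ⟨u, hu0, hu1, -⟩ := exists_continuous_zero_one_of_isClosed
        (isClosed_singleton (x := π x)) (isClosed_singleton (x := π x'))
        (Set.disjoint_singleton.2 hp)
      have h0 : u (π x) = 0 := hu0 (Set.mem_singleton _)
      have h1 : u (π x') = 1 := hu1 (Set.mem_singleton _)
      refine ⟨fun z => ((u (π z) : ℝ) : ℂ), ⟨⟨fun z => ((u (π z) : ℝ) : ℂ),
        Complex.continuous_ofReal.comp (u.continuous.comp hπ)⟩,
        bdd_base hπT (fun y => ((u y : ℝ) : ℂ)), rfl⟩, ?_⟩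
      change ((u (π x) : ℝ) : ℂ) ≠ ((u (π x') : ℝ) : ℂ)
      rw [h0, h1]
      norm_num
  have hT := ContinuousMap.starSubalgebra_topologicalClosure_eq_top_of_separatesPoints _ hA
  have hF : F ∈ (alg S P T π).topologicalClosure := by
    rw [hT]
    trivial
  refine bdd_of (fun η hη => ?_)
  have hF' : F ∈ closure ((alg S P T π : StarSubalgebra ℂ C(X, ℂ)) : Set C(X, ℂ)) := hF
  obtain ⟨F₁, hF₁, hd⟩ := Metric.mem_closure_iff.1 hF' (η / 2) (by positivity)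
  have hF₁' : Bdd S P T π F₁ := hF₁
  refine ⟨F₁, F₁, 1, 0, zero_le_one, le_refl _, hF₁', hF₁', ?_⟩
  intro x x'
  have d1 : ∀ z, ‖F z - F₁ z‖ ≤ η / 2 := by
    intro z
    rw [← dist_eq_norm]
    exact (ContinuousMap.dist_apply_le_dist z).trans hd.le
  have e : F x - F x' = (F x - F₁ x) + (F₁ x - F₁ x') - (F x' - F₁ x') := by ring
  rw [e]
  have t1 := norm_sub_le ((F x - F₁ x) + (F₁ x - F₁ x')) (F x' - F₁ x')
  have t2 := norm_add_le (F x - F₁ x) (F₁ x - F₁ x')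
  have t3 := d1 x
  have t4 := d1 x'
  linarith

theorem small_of_bdd {X Y : Type} [TopologicalSpace Y] {S : Y → Y} {P : Set Y} {T : X → X}
    {π : X → Y} {F : X → ℂ} (h : Bdd S P T π F) (δ : ℝ) (hδ : 0 < δ) :
    ∃ H : ℕ, 1 ≤ H ∧ ∃ G : Set Y, IsClosed G ∧ Mostly S P G δ ∧ ∀ y ∈ G, ∃ A : Finset X,
      (A.card : ℝ) ≤ δ * H ∧ ∀ x, π x = y → ∃ a ∈ A,
        ∑ m ∈ range H, ‖F (T^[m] x) - F (T^[m] a)‖ ≤ δ * H := by
  classical
  obtain ⟨K, G, hG, hM, hK⟩ := h δ hδ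
  refine ⟨max 1 ⌈(K : ℝ) / δ⌉₊, le_max_left _ _, G, hG, hM, ?_⟩
  intro y hy
  obtain ⟨κ, hκ⟩ := hK (max 1 ⌈(K : ℝ) / δ⌉₊) y hy
  have h1 : ∀ i : Fin K, ∃ A : Finset X, A.card ≤ 1 ∧ ∀ x, π x = y → κ x = i →
      ∃ a ∈ A, π a = y ∧ κ a = i := by
    intro i
    by_cases hi : ∃ a, π a = y ∧ κ a = i
    · obtain ⟨a, ha, hai⟩ := hi
      exact ⟨{a}, by rw [Finset.card_singleton], fun x _ _ => ⟨a, Finset.mem_singleton_self a, ha, hai⟩⟩
    · exact ⟨∅, by rw [Finset.card_empty]; omega, fun x hx hxi => (hi ⟨x, hx, hxi⟩).elim⟩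
  choose A hA hA' using h1
  refine ⟨Finset.univ.biUnion A, ?_, ?_⟩
  · have h2 : (Finset.univ.biUnion A).card ≤ K := by
      calc (Finset.univ.biUnion A).card ≤ ∑ i, (A i).card := Finset.card_biUnion_le
        _ ≤ ∑ _i : Fin K, 1 := Finset.sum_le_sum (fun i _ => hA i)
        _ = K := by simp
    have h3 : (K : ℝ) ≤ δ * ((max 1 ⌈(K : ℝ) / δ⌉₊ : ℕ) : ℝ) := by
      have h4 : (K : ℝ) / δ ≤ ((max 1 ⌈(K : ℝ) / δ⌉₊ : ℕ) : ℝ) := by
        refine (Nat.le_ceil _).trans ?_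
        exact_mod_cast le_max_right _ _
      rw [div_le_iff₀ hδ] at h4
      linarith
    refine le_trans ?_ h3
    exact_mod_cast h2
  · intro x hx
    obtain ⟨a, haA, ha, hai⟩ := hA' (κ x) x hx rfl
    exact ⟨a, Finset.mem_biUnion.2 ⟨κ x, Finset.mem_univ _, haA⟩, hκ x a hx ha hai.symm⟩

lemma iter_semiconj {X X' : Type} {T : X → X} {T' : X' → X'} {ψ : X → X'}
    (hψT : ∀ x, ψ (T x) = T' (ψ x)) (m : ℕ) (x : X) : ψ (T^[m] x) = T'^[m] (ψ x) := by
  induction m generalizing x with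
  | zero => rfl
  | succ m ih => rw [Function.iterate_succ_apply, Function.iterate_succ_apply, ih, hψT]

theorem bdd_comap {X X' Y : Type} [TopologicalSpace Y] {S : Y → Y} {P : Set Y} {T : X → X}
    {π : X → Y} {T' : X' → X'} {π' : X' → Y} {ψ : X → X'} (hψT : ∀ x, ψ (T x) = T' (ψ x))
    (hψπ : ∀ x, π' (ψ x) = π x) {F : X' → ℂ} (h : Bdd S P T' π' F) :
    Bdd S P T π (fun x => F (ψ x)) := by
  intro δ hδ
  obtain ⟨K, G, hG, hM, hK⟩ := h δ hδ
  refine ⟨K, G, hG, hM, fun H y hy => ?_⟩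
  obtain ⟨κ, hκ⟩ := hK H y hy
  refine ⟨fun x => κ (ψ x), fun x x' hx hx' hxx => ?_⟩
  have h1 := hκ (ψ x) (ψ x') (by rw [hψπ, hx]) (by rw [hψπ, hx']) hxx
  refine le_trans (le_of_eq ?_) h1
  refine Finset.sum_congr rfl (fun m _ => ?_)
  change ‖F (ψ (T^[m] x)) - F (ψ (T^[m] x'))‖ = _
  rw [iter_semiconj hψT, iter_semiconj hψT]

theorem bdd_factor {X X' Y : Type} [TopologicalSpace Y] {S : Y → Y} {P : Set Y} {T : X → X}
    {π : X → Y} {T' : X' → X'} {π' : X' → Y} {ψ : X → X'} (hψ : Function.Surjective ψ)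
    (hψT : ∀ x, ψ (T x) = T' (ψ x)) (hψπ : ∀ x, π' (ψ x) = π x) {F : X' → ℂ}
    (h : Bdd S P T π (fun x => F (ψ x))) : Bdd S P T' π' F := by
  intro δ hδ
  obtain ⟨K, G, hG, hM, hK⟩ := h δ hδ
  refine ⟨K, G, hG, hM, fun H y hy => ?_⟩
  obtain ⟨κ, hκ⟩ := hK H y hy
  refine ⟨fun x => κ (Function.surjInv hψ x), fun x x' hx hx' hxx => ?_⟩
  have e : ∀ z, ψ (Function.surjInv hψ z) = z := Function.surjInv_eq hψ
  have h1 := hκ (Function.surjInv hψ x) (Function.surjInv hψ x') (by rw [← hψπ, e, hx])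
    (by rw [← hψπ, e, hx']) hxx
  refine le_trans (le_of_eq ?_) h1
  refine Finset.sum_congr rfl (fun m _ => ?_)
  change _ = ‖F (ψ (T^[m] (Function.surjInv hψ x))) - F (ψ (T^[m] (Function.surjInv hψ x')))‖
  rw [iter_semiconj hψT, iter_semiconj hψT, e, e]

end Pool.Agent.Zk90.BA
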