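import Pool.Agent.Zk84.M3.Stm

/-!
# Normalization of the bodies which are invariant under the circle group (module W1)
-/

set_option autoImplicit false

namespace Pool.Agent.Zk90.M3

open Complex Set Pool.Agent.Zk76.Wt Pool.Agent.Zk84.M3

/-- the action of the circle group -/
noncomputable def act (k t : ℝ) (x : ℂ × ℂ) : ℂ × ℂ :=
  (Complex.exp ((k : ℂ) * (t : ℂ) * Complex.I) * x.1, Complex.exp ((t : ℂ) * Complex.I) * x.2)

lemma act_cont (k t : ℝ) : Continuous (act k t) := by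
  unfold act
  fun_prop

lemma act_act (k s t : ℝ) (x : ℂ × ℂ) : act k s (act k t x) = act k (s + t) x := by
  unfold act
  refine Prod.ext ?_ ?_
  · change exp ((k : ℂ) * s * I) * (exp ((k : ℂ) * t * I) * x.1) = exp ((k : ℂ) * (s + t : ℝ) * I) * x.1
    rw [← mul_assoc, ← Complex.exp_add]
    congr 2
    push_cast
    ring
  · change exp ((s : ℂ) * I) * (exp ((t : ℂ) * I) * x.2) = exp (((s + t : ℝ) : ℂ) * I) * x.2
    rw [← mul_assoc, ← Complex.exp_add]
    congr 2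
    push_cast
    ring

lemma act_zero (k : ℝ) (x : ℂ × ℂ) : act k 0 x = x := by
  unfold act
  simp

lemma act_interior {k : ℝ} {K : Set (ℂ × ℂ)} (h : Inv k K) (t : ℝ) {y : ℂ × ℂ}
    (hy : y ∈ interior K) : act k t y ∈ interior K := by
  rw [mem_interior]
  refine ⟨act k (-t) ⁻¹' interior K, ?_, isOpen_interior.preimage (act_cont k (-t)), ?_⟩
  · intro x hx
    have h1 : act k t (act k (-t) x) ∈ K := h t _ (interior_subset hx)
    rw [act_act, add_neg_cancel, act_zero] at h1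
    exact h1
  · change act k (-t) (act k t y) ∈ interior K
    rw [act_act, neg_add_cancel, act_zero]
    exact hy

lemma zero_interior {k : ℝ} (hk : 0 < k) {K : Set (ℂ × ℂ)} (hc : Convex ℝ K)
    (hi : (interior K).Nonempty) (h : Inv k K) : (0 : ℂ × ℂ) ∈ interior K := by
  obtain ⟨y, hy⟩ := hi
  have h1 := act_interior h (Real.pi / k) hy
  have h2 := act_interior h Real.pi hy
  have h3 := act_interior h (Real.pi + Real.pi / k) hy
  have hci : Convex ℝ (interior K) := hc.interior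
  have m1 : (1 / 2 : ℝ) • y + (1 / 2 : ℝ) • act k Real.pi y ∈ interior K :=
    hci hy h2 (by norm_num) (by norm_num) (by norm_num)
  have m2 : (1 / 2 : ℝ) • act k (Real.pi / k) y +
      (1 / 2 : ℝ) • act k (Real.pi + Real.pi / k) y ∈ interior K :=
    hci h1 h3 (by norm_num) (by norm_num) (by norm_num)
  have m3 := hci m1 m2 (a := 1 / 2) (b := 1 / 2) (by norm_num) (by norm_num) (by norm_num)
  have hpi : exp ((Real.pi : ℂ) * I) = -1 := Complex.exp_pi_mul_I
  have hk0 : (k : ℂ) ≠ 0 := by exact_mod_cast hk.ne'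
  have e1 : exp ((k : ℂ) * ((Real.pi / k : ℝ) : ℂ) * I) = -1 := by
    rw [← hpi]
    congr 2
    push_cast
    field_simp
  have e2 : exp ((k : ℂ) * ((Real.pi + Real.pi / k : ℝ) : ℂ) * I) =
      -exp ((k : ℂ) * (Real.pi : ℂ) * I) := by
    have : (k : ℂ) * ((Real.pi + Real.pi / k : ℝ) : ℂ) * I =
        (k : ℂ) * (Real.pi : ℂ) * I + (k : ℂ) * ((Real.pi / k : ℝ) : ℂ) * I := by
      push_cast
      ring
    rw [this, Complex.exp_add, e1]
    ring
  have e3 : exp (((Real.pi + Real.pi / k : ℝ) : ℂ) * I) = -exp (((Real.pi / k : ℝ) : ℂ) * I) := by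
    have : ((Real.pi + Real.pi / k : ℝ) : ℂ) * I =
        (Real.pi : ℂ) * I + ((Real.pi / k : ℝ) : ℂ) * I := by
      push_cast
      ring
    rw [this, Complex.exp_add, hpi]
    ring
  have h0 : (1 / 2 : ℝ) • ((1 / 2 : ℝ) • y + (1 / 2 : ℝ) • act k Real.pi y) +
      (1 / 2 : ℝ) • ((1 / 2 : ℝ) • act k (Real.pi / k) y +
        (1 / 2 : ℝ) • act k (Real.pi + Real.pi / k) y) = 0 := by
    unfold act
    refine Prod.ext ?_ ?_
    · simp only [Prod.fst_add, Prod.smul_fst, Prod.fst_zero, e1, e2, real_smul]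
      push_cast
      ring
    · simp only [Prod.snd_add, Prod.smul_snd, Prod.snd_zero, hpi, e3, real_smul]
      push_cast
      ring
  rw [h0] at m3
  exact m3

/-- scaling of the coordinates -/
noncomputable def scal (M1 M2 : ℝ) (h1 : 0 < M1) (h2 : 0 < M2) : (ℂ × ℂ) ≃L[ℝ] (ℂ × ℂ) where
  toFun x := ((M1 : ℂ) * x.1, (M2 : ℂ) * x.2)
  invFun x := ((M1 : ℂ)⁻¹ * x.1, (M2 : ℂ)⁻¹ * x.2)
  map_add' x y := by
    refine Prod.ext ?_ ?_
    · change (M1 : ℂ) * (x.1 + y.1) = M1 * x.1 + M1 * y.1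
      ring
    · change (M2 : ℂ) * (x.2 + y.2) = M2 * x.2 + M2 * y.2
      ring
  map_smul' c x := by
    refine Prod.ext ?_ ?_
    · change (M1 : ℂ) * (c • x.1) = c • ((M1 : ℂ) * x.1)
      rw [mul_smul_comm]
    · change (M2 : ℂ) * (c • x.2) = c • ((M2 : ℂ) * x.2)
      rw [mul_smul_comm]
  left_inv x := by
    have e1 : (M1 : ℂ) ≠ 0 := by exact_mod_cast h1.ne'
    have e2 : (M2 : ℂ) ≠ 0 := by exact_mod_cast h2.ne'
    refine Prod.ext ?_ ?_
    · change (M1 : ℂ)⁻¹ * ((M1 : ℂ) * x.1) = x.1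
      field_simp
    · change (M2 : ℂ)⁻¹ * ((M2 : ℂ) * x.2) = x.2
      field_simp
  right_inv x := by
    have e1 : (M1 : ℂ) ≠ 0 := by exact_mod_cast h1.ne'
    have e2 : (M2 : ℂ) ≠ 0 := by exact_mod_cast h2.ne'
    refine Prod.ext ?_ ?_
    · change (M1 : ℂ) * ((M1 : ℂ)⁻¹ * x.1) = x.1
      field_simp
    · change (M2 : ℂ) * ((M2 : ℂ)⁻¹ * x.2) = x.2
      field_simp
  continuous_toFun := by
    change Continuous (fun x : ℂ × ℂ => ((M1 : ℂ) * x.1, (M2 : ℂ) * x.2))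
    fun_prop
  continuous_invFun := by
    change Continuous (fun x : ℂ × ℂ => ((M1 : ℂ)⁻¹ * x.1, (M2 : ℂ)⁻¹ * x.2))
    fun_prop

theorem w1 : Pool.Agent.Zk84.M3.W1 := by
  intro k hk hk1 m H K hconv hcomp hint hinv
  have h0 := zero_interior hk hconv hint hinv
  have hne : K.Nonempty := ⟨0, interior_subset h0⟩
  obtain ⟨a, haK, ha⟩ := hcomp.exists_isMaxOn hne (f := fun x : ℂ × ℂ => ‖x.1‖) (by fun_prop)
  obtain ⟨b, hbK, hb⟩ := hcomp.exists_isMaxOn hne (f := fun x : ℂ × ℂ => ‖x.2‖) (by fun_prop)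
  have ha' : ∀ x ∈ K, ‖x.1‖ ≤ ‖a.1‖ := fun x hx => ha hx
  have hb' : ∀ x ∈ K, ‖x.2‖ ≤ ‖b.2‖ := fun x hx => hb hx
  obtain ⟨ε, hε, hball⟩ := Metric.isOpen_iff.1 isOpen_interior 0 h0
  have hM1 : 0 < ‖a.1‖ := by
    have h1 : (((ε / 2 : ℝ) : ℂ), (0 : ℂ)) ∈ K := by
      refine interior_subset (hball ?_)
      rw [mem_ball_zero_iff, Prod.norm_mk, norm_zero, Complex.norm_real, Real.norm_eq_abs,
        abs_of_pos (by positivity)]
      exact max_lt (by linarith) hε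
    have h2 := ha' _ h1
    rw [Complex.norm_real, Real.norm_eq_abs, abs_of_pos (by positivity)] at h2
    linarith
  have hM2 : 0 < ‖b.2‖ := by
    have h1 : ((0 : ℂ), ((ε / 2 : ℝ) : ℂ)) ∈ K := by
      refine interior_subset (hball ?_)
      rw [mem_ball_zero_iff, Prod.norm_mk, norm_zero, Complex.norm_real, Real.norm_eq_abs,
        abs_of_pos (by positivity)]
      exact max_lt hε (by linarith)
    have h2 := hb' _ h1
    rw [Complex.norm_real, Real.norm_eq_abs, abs_of_pos (by positivity)] at h2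
    linarith
  set L := scal ‖a.1‖ ‖b.2‖ hM1 hM2 with hL
  have hLx : ∀ x : ℂ × ℂ, L x = (((‖a.1‖ : ℝ) : ℂ) * x.1, ((‖b.2‖ : ℝ) : ℂ) * x.2) := fun x => rfl
  have hLs : ∀ x : ℂ × ℂ, L.symm x = (((‖a.1‖ : ℝ) : ℂ)⁻¹ * x.1, ((‖b.2‖ : ℝ) : ℂ)⁻¹ * x.2) :=
    fun x => rfl
  refine Pool.Agent.Zk84.HC.cover_equiv L (H _ ?_)
  constructor
  · exact hconv.linear_preimage L.toLinearEquiv.toLinearMap
  · exact L.toHomeomorph.isCompact_preimage.2 hcomp
  · have hint' : interior (L ⁻¹' K) = L ⁻¹' interior K :=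
      (L.toHomeomorph.preimage_interior K).symm
    rw [hint']
    change L 0 ∈ interior K
    rw [map_zero]
    exact h0
  · intro t x hx
    have h1 := hinv t (L x) hx
    change L (_, _) ∈ K
    rw [hLx]
    rw [hLx] at h1
    convert h1 using 2
    · change ((‖a.1‖ : ℝ) : ℂ) * (exp ((k : ℂ) * t * I) * x.1) =
        exp ((k : ℂ) * t * I) * (((‖a.1‖ : ℝ) : ℂ) * x.1)
      ring
    · change ((‖b.2‖ : ℝ) : ℂ) * (exp ((t : ℂ) * I) * x.2) =
        exp ((t : ℂ) * I) * (((‖b.2‖ : ℝ) : ℂ) * x.2)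
      ring
  · intro x hx
    have h1 := ha' (L x) hx
    rw [hLx] at h1
    change ‖((‖a.1‖ : ℝ) : ℂ) * x.1‖ ≤ ‖a.1‖ at h1
    rw [norm_mul, Complex.norm_real, norm_norm] at h1
    nlinarith
  · intro x hx
    have h1 := hb' (L x) hx
    rw [hLx] at h1
    change ‖((‖b.2‖ : ℝ) : ℂ) * x.2‖ ≤ ‖b.2‖ at h1
    rw [norm_mul, Complex.norm_real, norm_norm] at h1
    nlinarith
  · refine ⟨L.symm a, ?_, ?_⟩
    · change L (L.symm a) ∈ K
      rw [ContinuousLinearEquiv.apply_symm_apply]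
      exact haK
    · rw [hLs]
      change ‖((‖a.1‖ : ℝ) : ℂ)⁻¹ * a.1‖ = 1
      rw [norm_mul, norm_inv, Complex.norm_real, norm_norm, inv_mul_cancel₀ hM1.ne']
  · refine ⟨L.symm b, ?_, ?_⟩
    · change L (L.symm b) ∈ K
      rw [ContinuousLinearEquiv.apply_symm_apply]
      exact hbK
    · rw [hLs]
      change ‖((‖b.2‖ : ℝ) : ℂ)⁻¹ * b.2‖ = 1
      rw [norm_mul, norm_inv, Complex.norm_real, norm_norm, inv_mul_cancel₀ hM2.ne']

end Pool.Agent.Zk90.M3
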